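import Pool.Agent.Q225.CD.NegB

/-!
# Project CD of helper240: job Neg (an off-line point makes the limit form unbounded from below)
-/

set_option autoImplicit false

open Polynomial Filter Topology Finset MeasureTheory Pool.Agent.Q240.CD

namespace Pool.Agent.Q225.CD

variable {Z : Set ℂ} {m : ℂ → ℕ}

/-- The test polynomials. -/
noncomputable def PP (S : Finset ℂ) (α β b : ℝ) (N : ℕ) : ℝ[X] :=
  ((∏ z ∈ S, qd z) * (C α + C β * X) * tau b N).comp (X ^ 2)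

theorem PP_aeval (S : Finset ℂ) (α β b : ℝ) (N : ℕ) (z : ℂ) : aeval z (PP S α β b N) =
    aeval (z ^ 2) (∏ z ∈ S, qd z) * ((α : ℂ) + β * z ^ 2) * aeval (z ^ 2) (tau b N) := by
  unfold PP
  rw [aeval_comp, map_pow, aeval_X, map_mul, map_mul, map_add, map_mul, aeval_C, aeval_C, aeval_X]
  rfl

theorem PP_le {A A1 : ℝ} {S : Finset ℂ}
    (hA : ∀ t : ℂ, ‖aeval t (∏ z ∈ S, qd z)‖ ≤ Real.exp (A * ‖t‖ ^ (7 / 8 : ℝ)))
    {α β b : ℝ} (hα : |α| ≤ A1) (hβ : |β| ≤ A1) (N : ℕ) (z : ℂ) :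
    ‖aeval z (PP S α β b N)‖ ≤ G1 A A1 ‖z‖ * ‖aeval (z ^ 2) (tau b N)‖ := by
  rw [PP_aeval, norm_mul, norm_mul]
  refine mul_le_mul_of_nonneg_right ?_ (norm_nonneg _)
  unfold G1
  have h1 := hA (z ^ 2)
  rw [norm_pow] at h1
  refine mul_le_mul h1 ?_ (norm_nonneg _) (Real.exp_pos _).le
  have h2 : ‖(α : ℂ) + β * z ^ 2‖ ≤ |α| + |β| * ‖z‖ ^ 2 := by
    refine (norm_add_le _ _).trans (le_of_eq ?_)
    rw [norm_mul, Complex.norm_real, Complex.norm_real, norm_pow, Real.norm_eq_abs,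
      Real.norm_eq_abs]
  have h3 : |β| * ‖z‖ ^ 2 ≤ A1 * ‖z‖ ^ 2 := mul_le_mul_of_nonneg_right hβ (by positivity)
  linarith

theorem norm_exp_le {c : ℝ} (hc : 0 < c) {z : ℂ} (hz : |z.im| ≤ 1) :
    ‖Complex.exp (-(2 * c * z ^ 2))‖ ≤ Real.exp (4 * c) * Real.exp (-(2 * c * ‖z‖ ^ 2)) := by
  rw [Complex.norm_exp, ← Real.exp_add, Real.exp_le_exp]
  have e1 : (-(2 * c * z ^ 2) : ℂ).re = -(2 * c * (z.re ^ 2 - z.im ^ 2)) := by
    simp [sq]
  have e2 : ‖z‖ ^ 2 = z.re ^ 2 + z.im ^ 2 := by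
    rw [← Complex.normSq_eq_norm_sq, Complex.normSq_apply]
    ring
  have h3 : z.im ^ 2 ≤ 1 := by
    rw [← sq_abs]
    exact pow_le_one₀ (abs_nonneg _) hz
  rw [e1, e2]
  nlinarith

/-- JOB Neg. -/
theorem neg : S_Neg := by
  classical
  intro Z m h ⟨z0, hz0, him⟩ c hc Λ
  have hre := h.re0 z0 hz0
  have hti : (z0 ^ 2).im ≠ 0 := by
    have e : (z0 ^ 2).im = 2 * (z0.re * z0.im) := by
      rw [sq, Complex.mul_im]
      ring
    rw [e]
    exact mul_ne_zero two_ne_zero (mul_ne_zero hre him)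
  obtain ⟨A, hA0, hA⟩ := qd_prod_le h
  obtain ⟨b0, hb0, hb⟩ := qd_prod_ge h (t := z0 ^ 2)
  obtain ⟨A1, hA1⟩ : ∃ A1, A1 = 1 + (1 + ‖z0 ^ 2‖) / |(z0 ^ 2).im| := ⟨_, rfl⟩
  have hA10 : 0 ≤ A1 := by rw [hA1]; positivity
  -- the exceptional points
  obtain ⟨E, hE⟩ : ∃ E : Finset ℂ, E = {z0, -z0, (starRingEnd ℂ) z0, -(starRingEnd ℂ) z0} :=
    ⟨_, rfl⟩
  obtain ⟨S, hS⟩ : ∃ S : ℕ → Finset ℂ, ∀ (N : ℕ) (z : ℂ), z ∈ S N ↔ (z ∈ Z ∧ ‖z‖ ≤ N) ∧ z ∉ E :=
    ⟨fun N => (zs_fin h N).toFinset.filter fun z => z ∉ E, fun N z => by simp⟩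
  have hSZ : ∀ N, ∀ z ∈ S N, z ∈ Z := fun N z hz => ((hS N z).1 hz).1.1
  have hSE : ∀ N, ∀ z ∈ S N, z ∈ Z ∧ z0 ^ 2 ≠ z ^ 2 ∧ z0 ^ 2 ≠ (starRingEnd ℂ) (z ^ 2) := by
    intro N z hz
    have hz' := (hS N z).1 hz
    have hzE := hz'.2
    rw [hE] at hzE
    simp only [Finset.mem_insert, Finset.mem_singleton, not_or] at hzE
    refine ⟨hz'.1.1, fun he => ?_, fun he => ?_⟩
    · rcases sq_eq_sq_iff_eq_or_eq_neg.1 he with h1 | h1
      · exact hzE.1 h1.symm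
      · exact hzE.2.1 (by rw [h1, neg_neg])
    · rw [map_pow] at he
      rcases sq_eq_sq_iff_eq_or_eq_neg.1 he with h1 | h1
      · exact hzE.2.2.1 (by rw [h1, Complex.conj_conj])
      · exact hzE.2.2.2 (by rw [h1, map_neg, Complex.conj_conj, neg_neg])
  -- the constants
  have hG1i : Integrable fun x : ℝ => G1 A A1 x ^ 2 * Real.exp (-(2 * c * x ^ 2)) := by
    obtain ⟨K, hK, hKb⟩ := gauss_le (A := A) (A1 := A1) (b := 0) (c := c) hA0 hc
    have h1 : Integrable fun x : ℝ => K * Real.exp (-c * x ^ 2) :=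
      (integrable_exp_neg_mul_sq hc).const_mul K
    refine h1.mono' ?_ (Eventually.of_forall fun x => ?_)
    · have := G1_cont A A1
      exact (by fun_prop : Continuous fun x : ℝ =>
        G1 A A1 x ^ 2 * Real.exp (-(2 * c * x ^ 2))).aestronglyMeasurable
    · rw [Real.norm_of_nonneg (by positivity)]
      have h2 := hKb |x| (abs_nonneg x)
      have e : G1 A A1 |x| = G1 A A1 x := by
        unfold G1
        rw [sq_abs]
      rw [zero_mul, Real.exp_zero, mul_one, sq_abs, e] at h2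
      exact h2
  obtain ⟨C', hC'⟩ : ∃ C', C' = ∫ x : ℝ, G1 A A1 x ^ 2 * Real.exp (-(2 * c * x ^ 2)) := ⟨_, rfl⟩
  have hC'0 : 0 ≤ C' := by
    rw [hC']
    exact integral_nonneg fun x => by positivity
  obtain ⟨e0, he0⟩ : ∃ e0, e0 = ‖Complex.exp (-(c * z0 ^ 2))‖ ^ 2 := ⟨_, rfl⟩
  have he0p : 0 < e0 := by
    rw [he0]
    exact pow_pos (norm_pos_iff.2 (Complex.exp_ne_zero _)) 2
  -- the choice of `b`
  obtain ⟨b, hbpos, hbb⟩ : ∃ b : ℝ, 0 < b ∧
      |Λ| * (C' + 1) + 1 < b0 ^ 2 * e0 * (b * |z0.im| / 2) ^ 2 := by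
    have him' : 0 < |z0.im| := abs_pos.2 him
    have h1 : Tendsto (fun b : ℝ => b0 ^ 2 * e0 * (b * |z0.im| / 2) ^ 2) atTop atTop := by
      have h2 : Tendsto (fun b : ℝ => b * |z0.im| / 2) atTop atTop :=
        (tendsto_id.atTop_mul_const him').atTop_div_const two_pos
      exact ((tendsto_pow_atTop two_ne_zero).comp h2).const_mul_atTop (by positivity)
    obtain ⟨b, h3, h4⟩ := ((eventually_gt_atTop (0 : ℝ)).and
      (h1.eventually (eventually_gt_atTop (|Λ| * (C' + 1) + 1)))).exists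
    exact ⟨b, h3, h4⟩
  have hb0' := hbpos.le
  -- the polynomials
  obtain ⟨w, hw⟩ : ∃ w : ℕ → ℂ, w = fun N => aeval (z0 ^ 2) (∏ z ∈ S N, qd z)
      * aeval (z0 ^ 2) (tau b N) * Complex.exp (-(c * z0 ^ 2)) := ⟨_, rfl⟩
  choose α β hαβ hα hβ using fun N => alphabeta (z0 ^ 2) (w N) hti
  rw [← hA1] at hα hβ
  obtain ⟨P, hP⟩ : ∃ P : ℕ → ℝ[X], P = fun N => PP (S N) (α N) (β N) b N := ⟨_, rfl⟩
  have hPle : ∀ (N : ℕ) (z : ℂ), ‖aeval z (P N)‖ ≤ G1 A A1 ‖z‖ * ‖aeval (z ^ 2) (tau b N)‖ := by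
    intro N z
    rw [hP]
    exact PP_le (hA (S N) (hSZ N)) (hα N) (hβ N) N z
  have hPle2 : ∀ (N : ℕ) (z : ℂ), ‖aeval z (P N)‖ ≤ G1 A A1 ‖z‖ * Real.exp (b * ‖z‖) := fun N z =>
    (hPle N z).trans (mul_le_mul_of_nonneg_left (tau_le hb0' N z) (G1_nonneg hA10))
  have hPz0 : ∀ N, aeval z0 (P N) ^ 2 * Complex.exp (-(2 * c * z0 ^ 2))
      = -((‖w N‖ ^ 2 : ℝ) : ℂ) := by
    intro N
    rw [← hαβ N, hP]
    simp only
    rw [PP_aeval, hw]
    simp only
    have e : Complex.exp (-(2 * c * z0 ^ 2)) = Complex.exp (-(c * z0 ^ 2)) ^ 2 := by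
      rw [← Complex.exp_nat_mul]
      congr 1
      push_cast
      ring
    rw [e]
    ring
  have hPE : ∀ N, ∀ z ∈ E, aeval z (P N) ^ 2 * Complex.exp (-(2 * c * z ^ 2))
      = -((‖w N‖ ^ 2 : ℝ) : ℂ) := by
    intro N z hz
    have hneg : ∀ x : ℂ, aeval (-x) (P N) = aeval x (P N) := fun x => by
      rw [hP]
      simp only
      rw [PP_aeval, PP_aeval, neg_sq]
    have hcj : aeval ((starRingEnd ℂ) z0) (P N) ^ 2
        * Complex.exp (-(2 * c * (starRingEnd ℂ) z0 ^ 2)) = -((‖w N‖ ^ 2 : ℝ) : ℂ) := by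
      have h1 := congrArg (starRingEnd ℂ) (hPz0 N)
      rw [map_mul, map_pow, ← Polynomial.aeval_conj, ← Complex.exp_conj, map_neg, map_neg,
        Complex.conj_ofReal, map_mul, map_mul, map_pow, Complex.conj_ofReal] at h1
      have e2 : (starRingEnd ℂ) (2 : ℂ) = 2 := Complex.conj_ofNat 2
      rw [e2] at h1
      exact h1
    rw [hE] at hz
    simp only [Finset.mem_insert, Finset.mem_singleton] at hz
    rcases hz with rfl | rfl | rfl | rfl
    · exact hPz0 N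
    · rw [hneg, neg_sq]
      exact hPz0 N
    · exact hcj
    · rw [hneg, neg_sq]
      exact hcj
  have hPS : ∀ N, ∀ z ∈ S N, aeval z (P N) = 0 := by
    intro N z hz
    rw [hP]
    simp only
    rw [PP_aeval, map_prod]
    have h1 : aeval (z ^ 2) (qd z) = 0 := by
      rw [qd_aeval, mul_inv_cancel₀ (pow_ne_zero 2 (zs_ne h (hSZ N z hz))), sub_self, zero_mul]
    rw [Finset.prod_eq_zero hz h1, zero_mul, zero_mul]
  -- the terms of the sum
  obtain ⟨hN, hhN⟩ : ∃ hN : ℕ → Z → ℝ, hN = fun N (z : Z) =>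
      (m z : ℝ) * ((aeval (z : ℂ) (P N)) ^ 2 * Complex.exp (-(2 * c * (z : ℂ) ^ 2))).re := ⟨_, rfl⟩
  obtain ⟨K, hK, hKb⟩ := gauss_le (A := A) (A1 := A1) (b := b) (c := c) hA0 hc
  have hdom : ∀ (N : ℕ) (z : Z), ‖hN N z‖ ≤ Real.exp (4 * c) * K * (1 + 1 / c) * wz m z := by
    intro N z
    have hz0 : 0 < ‖(z : ℂ)‖ := norm_pos_iff.2 (zs_ne h z.2)
    rw [hhN]
    simp only
    rw [norm_mul, Real.norm_of_nonneg (Nat.cast_nonneg _)]
    have h1 : ‖((aeval (z : ℂ) (P N)) ^ 2 * Complex.exp (-(2 * c * (z : ℂ) ^ 2))).re‖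
        ≤ Real.exp (4 * c) * K * (1 + 1 / c) * ‖(z : ℂ)‖ ^ (-(7 / 4) : ℝ) := by
      rw [Real.norm_eq_abs]
      refine (Complex.abs_re_le_norm _).trans ?_
      rw [norm_mul, norm_pow]
      calc ‖aeval (z : ℂ) (P N)‖ ^ 2 * ‖Complex.exp (-(2 * c * (z : ℂ) ^ 2))‖
          ≤ (G1 A A1 ‖(z : ℂ)‖ * Real.exp (b * ‖(z : ℂ)‖)) ^ 2
            * (Real.exp (4 * c) * Real.exp (-(2 * c * ‖(z : ℂ)‖ ^ 2))) :=
            mul_le_mul (pow_le_pow_left₀ (norm_nonneg _) (hPle2 N z) 2)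
              (norm_exp_le hc (h.strip z z.2)) (norm_nonneg _) (by positivity)
        _ = Real.exp (4 * c) * ((G1 A A1 ‖(z : ℂ)‖ * Real.exp (b * ‖(z : ℂ)‖)) ^ 2
            * Real.exp (-(2 * c * ‖(z : ℂ)‖ ^ 2))) := by ring
        _ ≤ Real.exp (4 * c) * (K * ((1 + 1 / c) * ‖(z : ℂ)‖ ^ (-(7 / 4) : ℝ))) := by
            refine mul_le_mul_of_nonneg_left ?_ (Real.exp_pos _).le
            exact (hKb _ (norm_nonneg _)).trans
              (mul_le_mul_of_nonneg_left (gauss_wz hc hz0) hK.le)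
        _ = _ := by ring
    calc (m z : ℝ) * ‖((aeval (z : ℂ) (P N)) ^ 2 * Complex.exp (-(2 * c * (z : ℂ) ^ 2))).re‖
        ≤ (m z : ℝ) * (Real.exp (4 * c) * K * (1 + 1 / c) * ‖(z : ℂ)‖ ^ (-(7 / 4) : ℝ)) :=
          mul_le_mul_of_nonneg_left h1 (Nat.cast_nonneg _)
      _ = _ := by
          unfold wz
          ring
  have hsumw : Summable fun z : Z => Real.exp (4 * c) * K * (1 + 1 / c) * wz m z :=
    (zs_summable h).mul_left _
  have htail : Tendsto (fun N => ∑' z : Z, if (z : ℂ) ∈ E then 0 else hN N z) atTop (𝓝 0) := by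
    have h1 := tendsto_tsum_of_dominated_convergence (𝓕 := atTop)
      (f := fun (N : ℕ) (z : Z) => if (z : ℂ) ∈ E then 0 else hN N z) (g := fun _ => (0 : ℝ))
      hsumw (fun z => ?_) (Eventually.of_forall fun N z => ?_)
    · simpa using h1
    · refine tendsto_const_nhds.congr' ?_
      obtain ⟨N0, hN0⟩ := exists_nat_ge ‖(z : ℂ)‖
      filter_upwards [eventually_ge_atTop N0] with N hN'
      split_ifs with hz
      · rfl
      · have h2 : (z : ℂ) ∈ S N := (hS N z).2 ⟨⟨z.2, hN0.trans (by exact_mod_cast hN')⟩, hz⟩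
        rw [hhN]
        simp only
        rw [hPS N z h2]
        simp
    · split_ifs with hz
      · rw [norm_zero]
        have := wz_nonneg m (z : ℂ)
        positivity
      · exact hdom N z
  -- the whole sum
  have hsum : ∀ N, ∑' z : Z, hN N z ≤ -‖w N‖ ^ 2 + ∑' z : Z, if (z : ℂ) ∈ E then 0 else hN N z := by
    intro N
    have s2 : Summable fun z : Z => if (z : ℂ) ∈ E then 0 else hN N z := by
      refine Summable.of_norm_bounded hsumw fun z => ?_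
      split_ifs with hz
      · rw [norm_zero]
        have := wz_nonneg m (z : ℂ)
        positivity
      · exact hdom N z
    obtain ⟨E', hE'⟩ : ∃ E' : Finset Z, ∀ z : Z, z ∈ E' ↔ (z : ℂ) ∈ E :=
      ⟨E.subtype (fun z => z ∈ Z), fun z => by simp⟩
    have s1 : HasSum (fun z : Z => if (z : ℂ) ∈ E then hN N z else 0)
        (∑ z ∈ E', if (z : ℂ) ∈ E then hN N z else 0) :=
      hasSum_sum_of_ne_finset_zero fun z hz => by
        rw [hE'] at hz
        exact if_neg hz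
    have s3 := s1.add s2.hasSum
    have e : (fun z : Z => (if (z : ℂ) ∈ E then hN N z else 0) + if (z : ℂ) ∈ E then 0 else hN N z)
        = hN N := by
      funext z
      split_ifs <;> simp
    rw [e] at s3
    rw [s3.tsum_eq]
    have hval : ∀ z : Z, (z : ℂ) ∈ E → hN N z = -((m z : ℝ) * ‖w N‖ ^ 2) := by
      intro z hz
      rw [hhN]
      simp only
      rw [hPE N z hz, Complex.neg_re, Complex.ofReal_re]
      ring
    have hz0E : z0 ∈ E := by rw [hE]; simp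
    have hz0E' : (⟨z0, hz0⟩ : Z) ∈ E' := (hE' _).2 hz0E
    have h1 : ∑ z ∈ E', (if (z : ℂ) ∈ E then hN N z else 0) ≤ hN N ⟨z0, hz0⟩ := by
      rw [← Finset.add_sum_erase _ _ hz0E', if_pos hz0E]
      have h2 : ∑ z ∈ E'.erase ⟨z0, hz0⟩, (if (z : ℂ) ∈ E then hN N z else 0) ≤ 0 := by
        refine Finset.sum_nonpos fun z _ => ?_
        split_ifs with hz
        · rw [hval z hz]
          have : 0 ≤ (m z : ℝ) * ‖w N‖ ^ 2 := by positivity
          linarith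
        · exact le_rfl
      linarith
    have h3 : hN N ⟨z0, hz0⟩ ≤ -‖w N‖ ^ 2 := by
      rw [hval _ hz0E]
      have h4 : (1 : ℝ) ≤ m z0 := by exact_mod_cast h.mpos z0 hz0
      have h5 : 0 ≤ ‖w N‖ ^ 2 := by positivity
      simp only
      nlinarith
    linarith
  -- the integrals
  have hev : ∀ (N : ℕ) (x : ℝ), (P N).eval x ^ 2 = ‖aeval (x : ℂ) (P N)‖ ^ 2 := by
    intro N x
    have e : aeval (x : ℂ) (P N) = (((P N).eval x : ℝ) : ℂ) := by
      have := Polynomial.aeval_algebraMap_apply ℂ x (P N)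
      simpa using this
    rw [e, Complex.norm_real, Real.norm_eq_abs, sq_abs]
  have hxn : ∀ x : ℝ, ‖(x : ℂ)‖ = |x| := fun x => by rw [Complex.norm_real, Real.norm_eq_abs]
  have hG1a : ∀ x : ℝ, G1 A A1 |x| = G1 A A1 x := fun x => by
    unfold G1
    rw [sq_abs]
  have hKi : Integrable fun x : ℝ => K * Real.exp (-c * x ^ 2) :=
    (integrable_exp_neg_mul_sq hc).const_mul K
  have htc : ∀ N, Continuous fun x : ℝ => ‖aeval ((x : ℂ) ^ 2) (tau b N)‖ := fun N => by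
    have h1 : Continuous fun z : ℂ => aeval z (tau b N) := (tau b N).continuous_aeval
    exact (h1.comp (by fun_prop : Continuous fun x : ℝ => (x : ℂ) ^ 2)).norm
  have hJb : ∀ (N : ℕ) (x : ℝ), (G1 A A1 x * ‖aeval ((x : ℂ) ^ 2) (tau b N)‖) ^ 2
      * Real.exp (-(2 * c * x ^ 2)) ≤ K * Real.exp (-c * x ^ 2) := by
    intro N x
    have h1 := hKb |x| (abs_nonneg x)
    rw [hG1a, sq_abs] at h1
    refine le_trans ?_ h1
    refine mul_le_mul_of_nonneg_right (pow_le_pow_left₀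
      (mul_nonneg (G1_nonneg hA10) (norm_nonneg _)) ?_ 2) (Real.exp_pos _).le
    refine mul_le_mul_of_nonneg_left ?_ (G1_nonneg hA10)
    have := tau_le hb0' N (x : ℂ)
    rwa [hxn] at this
  have hJi : ∀ N, Integrable fun x : ℝ => (G1 A A1 x * ‖aeval ((x : ℂ) ^ 2) (tau b N)‖) ^ 2
      * Real.exp (-(2 * c * x ^ 2)) := by
    intro N
    refine hKi.mono' ?_ (Eventually.of_forall fun x => ?_)
    · have h1 := G1_cont A A1
      have h2 := htc N
      exact (((h1.mul h2).pow 2).mul (by fun_prop)).aestronglyMeasurable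
    · rw [Real.norm_of_nonneg (by positivity)]
      exact hJb N x
  have hPi : ∀ N, Integrable fun x : ℝ => (P N).eval x ^ 2 * Real.exp (-(2 * c * x ^ 2)) := by
    intro N
    refine (hJi N).mono' ?_ (Eventually.of_forall fun x => ?_)
    · have := (P N).continuous
      exact (by fun_prop : Continuous fun x : ℝ =>
        (P N).eval x ^ 2 * Real.exp (-(2 * c * x ^ 2))).aestronglyMeasurable
    · rw [Real.norm_of_nonneg (by positivity), hev]
      refine mul_le_mul_of_nonneg_right (pow_le_pow_left₀ (norm_nonneg _) ?_ 2)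
        (Real.exp_pos _).le
      have := hPle N (x : ℂ)
      rwa [hxn, hG1a] at this
  have hPJ : ∀ N, ∫ x : ℝ, (P N).eval x ^ 2 * Real.exp (-(2 * c * x ^ 2))
      ≤ ∫ x : ℝ, (G1 A A1 x * ‖aeval ((x : ℂ) ^ 2) (tau b N)‖) ^ 2
        * Real.exp (-(2 * c * x ^ 2)) := by
    intro N
    refine integral_mono (hPi N) (hJi N) fun x => ?_
    simp only
    rw [hev]
    refine mul_le_mul_of_nonneg_right (pow_le_pow_left₀ (norm_nonneg _) ?_ 2)
      (Real.exp_pos _).le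
    have := hPle N (x : ℂ)
    rwa [hxn, hG1a] at this
  have hJt : Tendsto (fun N : ℕ => ∫ x : ℝ, (G1 A A1 x * ‖aeval ((x : ℂ) ^ 2) (tau b N)‖) ^ 2
        * Real.exp (-(2 * c * x ^ 2))) atTop
      (𝓝 (∫ x : ℝ, (G1 A A1 x * ‖Complex.cos (b * x)‖) ^ 2 * Real.exp (-(2 * c * x ^ 2)))) := by
    refine tendsto_integral_of_dominated_convergence (fun x => K * Real.exp (-c * x ^ 2))
      (fun N => (hJi N).aestronglyMeasurable) hKi
      (fun N => Eventually.of_forall fun x => ?_) (Eventually.of_forall fun x => ?_)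
    · rw [Real.norm_of_nonneg (by positivity)]
      exact hJb N x
    · exact (((tau_tendsto b (x : ℂ)).norm.const_mul _).pow 2).mul_const _
  have hJC : ∫ x : ℝ, (G1 A A1 x * ‖Complex.cos (b * x)‖) ^ 2 * Real.exp (-(2 * c * x ^ 2)) ≤ C' := by
    rw [hC']
    refine integral_mono_of_nonneg (Eventually.of_forall fun x => by positivity) hG1i
      (Eventually.of_forall fun x => ?_)
    simp only
    refine mul_le_mul_of_nonneg_right (pow_le_pow_left₀
      (mul_nonneg (G1_nonneg hA10) (norm_nonneg _)) ?_ 2) (Real.exp_pos _).le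
    have h1 : ‖Complex.cos (b * x)‖ ≤ 1 := by
      rw [← Complex.ofReal_mul, ← Complex.ofReal_cos, Complex.norm_real, Real.norm_eq_abs]
      exact Real.abs_cos_le_one _
    exact mul_le_of_le_one_right (G1_nonneg hA10) h1
  have evJ : ∀ᶠ N : ℕ in atTop, ∫ x : ℝ, (G1 A A1 x * ‖aeval ((x : ℂ) ^ 2) (tau b N)‖) ^ 2
      * Real.exp (-(2 * c * x ^ 2)) < C' + 1 := hJt.eventually (gt_mem_nhds (by linarith))
  -- the size of `w`
  have hwt : Tendsto (fun N : ℕ => b0 ^ 2 * e0 * ‖aeval (z0 ^ 2) (tau b N)‖ ^ 2) atTop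
      (𝓝 (b0 ^ 2 * e0 * ‖Complex.cos (b * z0)‖ ^ 2)) :=
    ((tau_tendsto b z0).norm.pow 2).const_mul _
  have hwlim : |Λ| * (C' + 1) + 1 < b0 ^ 2 * e0 * ‖Complex.cos (b * z0)‖ ^ 2 := by
    refine hbb.trans_le (mul_le_mul_of_nonneg_left ?_ (by positivity))
    exact pow_le_pow_left₀ (by positivity) (cos_ge b hb0' z0) 2
  have evw := hwt.eventually (lt_mem_nhds hwlim)
  have hwge : ∀ N, b0 ^ 2 * e0 * ‖aeval (z0 ^ 2) (tau b N)‖ ^ 2 ≤ ‖w N‖ ^ 2 := by
    intro N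
    rw [hw]
    simp only
    rw [norm_mul, norm_mul, mul_pow, mul_pow, ← he0]
    have h1 := pow_le_pow_left₀ hb0.le (hb (S N) (hSE N)) 2
    calc b0 ^ 2 * e0 * ‖aeval (z0 ^ 2) (tau b N)‖ ^ 2
        = b0 ^ 2 * (‖aeval (z0 ^ 2) (tau b N)‖ ^ 2 * e0) := by ring
      _ ≤ ‖aeval (z0 ^ 2) (∏ z ∈ S N, qd z)‖ ^ 2 * (‖aeval (z0 ^ 2) (tau b N)‖ ^ 2 * e0) := by
          gcongr
      _ = _ := by ring
  have evt : ∀ᶠ N : ℕ in atTop, ∑' z : Z, (if (z : ℂ) ∈ E then 0 else hN N z) < 1 :=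
    htail.eventually (gt_mem_nhds one_pos)
  obtain ⟨N, h1, h2, h3⟩ := (evJ.and (evw.and evt)).exists
  have hwN : |Λ| * (C' + 1) + 1 < ‖w N‖ ^ 2 := lt_of_lt_of_le h2 (hwge N)
  have hΛ0 : 0 ≤ |Λ| * (C' + 1) := by positivity
  have hP0 : P N ≠ 0 := by
    intro h0
    have h4 := hPz0 N
    rw [h0, map_zero, zero_pow two_ne_zero, zero_mul] at h4
    have h5 : ((‖w N‖ ^ 2 : ℝ) : ℂ) = 0 := by linear_combination h4
    rw [Complex.ofReal_eq_zero] at h5
    linarith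
  have hpos := int_pos (c := c) hP0 (hPi N)
  refine ⟨P N, hpos, ?_⟩
  have h4 := hsum N
  have h5 : ∑' z : Z, hN N z = ∑' z : Z, (m z : ℝ) * ((aeval (z : ℂ) (P N)) ^ 2
      * Complex.exp (-(2 * c * (z : ℂ) ^ 2))).re := by rw [hhN]
  rw [h5] at h4
  refine h4.trans ?_
  have h6 := hPJ N
  have h7 : Λ * ∫ x : ℝ, (P N).eval x ^ 2 * Real.exp (-(2 * c * x ^ 2)) ≤ |Λ| * (C' + 1) := by
    refine mul_le_mul (le_abs_self Λ) (by linarith) hpos.le (abs_nonneg Λ)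
  rw [neg_mul]
  linarith

end Pool.Agent.Q225.CD
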