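import Pool.Agent.Q240.CD.Stm

/-!
# Project CD of helper240: job Neg, part 1 (sets of zeros, products)
-/

set_option autoImplicit false

open Polynomial Filter Topology Finset MeasureTheory Pool.Agent.Q240.CD

namespace Pool.Agent.Q225.CD

variable {Z : Set ℂ} {m : ℂ → ℕ}

theorem zs_ne (h : ZS Z m) {z : ℂ} (hz : z ∈ Z) : z ≠ 0 := fun h0 =>
  h.re0 z hz (by rw [h0]; rfl)

/-- Discs contain finitely many points. -/
theorem zs_fin (h : ZS Z m) (T : ℝ) : {z : ℂ | z ∈ Z ∧ ‖z‖ ≤ T}.Finite := by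
  obtain ⟨C, hC⟩ := h.cnt
  by_contra hinf
  have hinf : {z : ℂ | z ∈ Z ∧ ‖z‖ ≤ T}.Infinite := hinf
  obtain ⟨n, hn⟩ := exists_nat_gt (C * (max T 1) ^ (3 / 2 : ℝ))
  obtain ⟨S, hS1, hS2⟩ := hinf.exists_subset_card_eq n
  have h1 := hC (max T 1) (le_max_right _ _) S fun z hz =>
    ⟨(hS1 hz).1, (hS1 hz).2.trans (le_max_left _ _)⟩
  have h2 : (n : ℝ) ≤ ∑ z ∈ S, (m z : ℝ) := by
    rw [← hS2, Finset.card_eq_sum_ones, Nat.cast_sum]
    exact Finset.sum_le_sum fun z hz => by exact_mod_cast h.mpos z (hS1 hz).1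
  linarith

/-- The weights. -/
noncomputable def wz (m : ℂ → ℕ) (z : ℂ) : ℝ := m z * ‖z‖ ^ (-(7 / 4) : ℝ)

theorem wz_nonneg (m : ℂ → ℕ) (z : ℂ) : 0 ≤ wz m z := by
  unfold wz
  positivity

theorem zs_partial (h : ZS Z m) : ∃ B : ℝ, ∀ S : Finset ℂ, (∀ z ∈ S, z ∈ Z) →
    ∑ z ∈ S, wz m z ≤ B := by
  classical
  obtain ⟨C, hC⟩ := h.cnt
  have hC0 : 0 ≤ C := by
    have := hC 1 le_rfl ∅ (fun z hz => by simp at hz)
    simpa using this
  obtain ⟨F, hF⟩ : ∃ F : Finset ℂ, ∀ z, z ∈ F ↔ z ∈ Z ∧ ‖z‖ ≤ 1 :=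
    ⟨(zs_fin h 1).toFinset, fun z => by simp⟩
  obtain ⟨q, hq⟩ : ∃ q : ℝ, q = (2 : ℝ) ^ (-(1 / 4) : ℝ) := ⟨_, rfl⟩
  have hq0 : 0 < q := by rw [hq]; positivity
  have hq1 : q < 1 := by
    rw [hq]
    exact Real.rpow_lt_one_of_one_lt_of_neg (by norm_num) (by norm_num)
  obtain ⟨D, hD⟩ : ∃ D : ℝ, D = C * (2 : ℝ) ^ (3 / 2 : ℝ) := ⟨_, rfl⟩
  have hD0 : 0 ≤ D := by rw [hD]; positivity
  have hind : ∀ K : ℕ, ∀ S : Finset ℂ, (∀ z ∈ S, z ∈ Z ∧ ‖z‖ ≤ 2 ^ K) →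
      ∑ z ∈ S, wz m z ≤ (∑ z ∈ F, wz m z) + D * ∑ k ∈ range K, q ^ k := by
    intro K
    induction K with
    | zero =>
      intro S hS
      have h1 : S ⊆ F := fun z hz => (hF z).2 (by simpa using hS z hz)
      have h2 := Finset.sum_le_sum_of_subset_of_nonneg h1 fun z _ _ => wz_nonneg m z
      simpa using h2
    | succ K ih =>
      intro S hS
      rw [← Finset.sum_filter_add_sum_filter_not S (fun z => ‖z‖ ≤ 2 ^ K)]
      have h1 := ih (S.filter fun z => ‖z‖ ≤ 2 ^ K) fun z hz => by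
        rw [Finset.mem_filter] at hz
        exact ⟨(hS z hz.1).1, hz.2⟩
      have h2 : ∑ z ∈ S.filter (fun z => ¬‖z‖ ≤ 2 ^ K), wz m z ≤ D * q ^ K := by
        have h3 : ∀ z ∈ S.filter (fun z => ¬‖z‖ ≤ 2 ^ K),
            wz m z ≤ m z * ((2 : ℝ) ^ K) ^ (-(7 / 4) : ℝ) := by
          intro z hz
          rw [Finset.mem_filter, not_le] at hz
          unfold wz
          refine mul_le_mul_of_nonneg_left ?_ (Nat.cast_nonneg _)
          exact Real.rpow_le_rpow_of_nonpos (by positivity) hz.2.le (by norm_num)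
        refine (Finset.sum_le_sum h3).trans ?_
        rw [← Finset.sum_mul]
        have h4 := hC (2 ^ (K + 1)) (one_le_pow₀ (by norm_num))
          (S.filter (fun z => ¬‖z‖ ≤ 2 ^ K)) fun z hz => hS z (Finset.mem_filter.1 hz).1
        refine (mul_le_mul_of_nonneg_right h4 (by positivity)).trans (le_of_eq ?_)
        have e1 : ((2 : ℝ) ^ (K + 1)) ^ (3 / 2 : ℝ) = (2 : ℝ) ^ (3 / 2 : ℝ)
            * (2 : ℝ) ^ ((K : ℝ) * (3 / 2)) := by
          rw [pow_succ, Real.mul_rpow (by positivity) (by norm_num), ← Real.rpow_natCast 2 K,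
            ← Real.rpow_mul (by norm_num), mul_comm]
        have e2 : ((2 : ℝ) ^ K) ^ (-(7 / 4) : ℝ) = (2 : ℝ) ^ ((K : ℝ) * (-(7 / 4))) := by
          rw [← Real.rpow_natCast 2 K, ← Real.rpow_mul (by norm_num)]
        have e3 : q ^ K = (2 : ℝ) ^ ((K : ℝ) * (-(1 / 4))) := by
          rw [hq, ← Real.rpow_natCast, ← Real.rpow_mul (by norm_num), mul_comm]
        rw [e1, e2, e3, hD]
        have e4 : (2 : ℝ) ^ ((K : ℝ) * (3 / 2)) * (2 : ℝ) ^ ((K : ℝ) * (-(7 / 4)))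
            = (2 : ℝ) ^ ((K : ℝ) * (-(1 / 4))) := by
          rw [← Real.rpow_add (by norm_num)]
          congr 1
          ring
        rw [← e4]
        ring
      rw [Finset.sum_range_succ, mul_add]
      linarith
  refine ⟨(∑ z ∈ F, wz m z) + D * (1 / (1 - q)), fun S hS => ?_⟩
  obtain ⟨M, hM⟩ : ∃ M : ℝ, ∀ z ∈ S, ‖z‖ ≤ M := by
    obtain ⟨M, hM⟩ := (S.finite_toSet.image norm).bddAbove
    exact ⟨M, fun z hz => hM ⟨z, hz, rfl⟩⟩
  obtain ⟨K, hK⟩ := pow_unbounded_of_one_lt M (by norm_num : (1 : ℝ) < 2)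
  refine (hind K S fun z hz => ⟨hS z hz, (hM z hz).trans hK.le⟩).trans ?_
  have h5 : ∑ k ∈ range K, q ^ k ≤ 1 / (1 - q) := by
    have h6 := (summable_geometric_of_lt_one hq0.le hq1).sum_le_tsum (range K)
      (fun k _ => (pow_pos hq0 k).le)
    rwa [tsum_geometric_of_lt_one hq0.le hq1, ← one_div] at h6
  have h6 := mul_le_mul_of_nonneg_left h5 hD0
  linarith

theorem zs_summable (h : ZS Z m) : Summable fun z : Z => wz m z := by
  classical
  obtain ⟨B, hB⟩ := zs_partial h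
  refine summable_of_sum_le (c := B) (fun z => wz_nonneg m z) fun u => ?_
  have h1 := hB (u.map (Function.Embedding.subtype _)) fun z hz => by
    rw [Finset.mem_map] at hz
    obtain ⟨x, _, rfl⟩ := hz
    exact x.2
  rwa [Finset.sum_map] at h1

/-- The points stay away from zero. -/
theorem zs_min (h : ZS Z m) : ∃ r : ℝ, 0 < r ∧ r ≤ 1 ∧ ∀ z ∈ Z, r ≤ ‖z‖ := by
  classical
  obtain ⟨F, hF⟩ : ∃ F : Finset ℂ, ∀ z, z ∈ F ↔ z ∈ Z ∧ ‖z‖ ≤ 1 :=
    ⟨(zs_fin h 1).toFinset, fun z => by simp⟩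
  rcases F.eq_empty_or_nonempty with h0 | h0
  · refine ⟨1, one_pos, le_rfl, fun z hz => ?_⟩
    by_contra hlt
    have : z ∈ F := (hF z).2 ⟨hz, (not_le.1 hlt).le⟩
    rw [h0] at this
    simp at this
  · obtain ⟨w, hw, hmin⟩ := F.exists_min_image (fun z => ‖z‖) h0
    refine ⟨‖w‖, norm_pos_iff.2 (zs_ne h ((hF w).1 hw).1), ((hF w).1 hw).2, fun z hz => ?_⟩
    rcases le_total ‖z‖ 1 with h1 | h1
    · exact hmin z ((hF z).2 ⟨hz, h1⟩)
    · exact ((hF w).1 hw).2.trans h1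

/-- Comparison with the inverse square. -/
theorem zs_sq (h : ZS Z m) : ∃ D : ℝ, 0 < D ∧ ∀ z ∈ Z, 1 / ‖z‖ ^ 2 ≤ D * wz m z := by
  obtain ⟨r, hr, hr1, hmin⟩ := zs_min h
  refine ⟨r ^ (-(1 / 4) : ℝ), by positivity, fun z hz => ?_⟩
  have hz0 : 0 < ‖z‖ := norm_pos_iff.2 (zs_ne h hz)
  have e : 1 / ‖z‖ ^ 2 = ‖z‖ ^ (-(1 / 4) : ℝ) * ‖z‖ ^ (-(7 / 4) : ℝ) := by
    rw [← Real.rpow_add hz0, one_div, ← Real.rpow_natCast, ← Real.rpow_neg hz0.le]
    norm_num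
  rw [e]
  have h1 : ‖z‖ ^ (-(1 / 4) : ℝ) ≤ r ^ (-(1 / 4) : ℝ) :=
    Real.rpow_le_rpow_of_nonpos hr (hmin z hz) (by norm_num)
  have h2 : ‖z‖ ^ (-(7 / 4) : ℝ) ≤ wz m z := by
    unfold wz
    have h3 : (1 : ℝ) ≤ m z := by exact_mod_cast h.mpos z hz
    exact le_mul_of_one_le_left (by positivity) h3
  exact mul_le_mul h1 h2 (by positivity) (by positivity)

/-! ### The factors -/

/-- The factor `(1 - t / z²) (1 - t / conj z²)`. -/
noncomputable def qd (z : ℂ) : ℝ[X] :=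
  1 - C (2 * ((z ^ 2)⁻¹).re) * X + C (Complex.normSq ((z ^ 2)⁻¹)) * X ^ 2

theorem qd_aeval (z t : ℂ) : aeval t (qd z) =
    (1 - t * (z ^ 2)⁻¹) * (1 - t * (starRingEnd ℂ) ((z ^ 2)⁻¹)) := by
  obtain ⟨w, hw⟩ : ∃ w, w = (z ^ 2)⁻¹ := ⟨_, rfl⟩
  unfold qd
  rw [← hw]
  have e1 : ((2 : ℝ) : ℂ) * (w.re : ℂ) = w + (starRingEnd ℂ) w := by
    rw [Complex.add_conj, ← Complex.ofReal_mul]
  have e2 : ((Complex.normSq w : ℝ) : ℂ) = w * (starRingEnd ℂ) w := (Complex.mul_conj w).symm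
  simp only [map_add, map_sub, map_one, map_mul, aeval_C, aeval_X, map_pow,
    Complex.coe_algebraMap]
  rw [e1, e2]
  ring

/-- The product of the factors is bounded. -/
theorem qd_prod_le (h : ZS Z m) : ∃ A : ℝ, 0 < A ∧ ∀ (S : Finset ℂ), (∀ z ∈ S, z ∈ Z) → ∀ t : ℂ,
    ‖aeval t (∏ z ∈ S, qd z)‖ ≤ Real.exp (A * ‖t‖ ^ (7 / 8 : ℝ)) := by
  obtain ⟨B, hB⟩ := zs_partial h
  have hB0 : 0 ≤ B := by simpa using hB ∅ (fun z hz => by simp at hz)
  refine ⟨16 / 7 * B + 1, by positivity, fun S hS t => ?_⟩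
  rw [map_prod, norm_prod]
  have h1 : ∀ z ∈ S, ‖aeval t (qd z)‖ ≤ Real.exp (16 / 7 * (‖t‖ ^ (7 / 8 : ℝ) * wz m z)) := by
    intro z hz
    have hz0 : 0 < ‖z‖ := norm_pos_iff.2 (zs_ne h (hS z hz))
    rw [qd_aeval, norm_mul]
    obtain ⟨y, hy⟩ : ∃ y : ℝ, y = ‖t‖ * (‖z‖ ^ 2)⁻¹ := ⟨_, rfl⟩
    have hy0 : 0 ≤ y := by rw [hy]; positivity
    have a1 : ‖1 - t * (z ^ 2)⁻¹‖ ≤ 1 + y := by
      refine (norm_sub_le _ _).trans (le_of_eq ?_)
      rw [norm_one, norm_mul, norm_inv, norm_pow, hy]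
    have a2 : ‖1 - t * (starRingEnd ℂ) ((z ^ 2)⁻¹)‖ ≤ 1 + y := by
      refine (norm_sub_le _ _).trans (le_of_eq ?_)
      rw [norm_one, norm_mul, Complex.norm_conj, norm_inv, norm_pow, hy]
    have a3 : 1 + y ≤ Real.exp (8 / 7 * y ^ (7 / 8 : ℝ)) := by
      have b1 : (1 + y) ^ (7 / 8 : ℝ) ≤ 1 + y ^ (7 / 8 : ℝ) := by
        have := Real.rpow_add_le_add_rpow (p := 7 / 8) zero_le_one hy0 (by norm_num) (by norm_num)
        rwa [Real.one_rpow] at this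
      have b2 : (1 + y) ^ (7 / 8 : ℝ) ≤ Real.exp (y ^ (7 / 8 : ℝ)) := by
        have := Real.add_one_le_exp (y ^ (7 / 8 : ℝ))
        linarith
      have b3 := Real.rpow_le_rpow (by positivity) b2 (show (0 : ℝ) ≤ 8 / 7 by norm_num)
      rw [← Real.rpow_mul (by positivity), ← Real.exp_mul] at b3
      norm_num at b3
      refine b3.trans (le_of_eq ?_)
      congr 1
      ring
    have a4 : y ^ (7 / 8 : ℝ) ≤ ‖t‖ ^ (7 / 8 : ℝ) * wz m z := by
      rw [hy, Real.mul_rpow (norm_nonneg _) (by positivity)]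
      refine mul_le_mul_of_nonneg_left ?_ (by positivity)
      have e : ((‖z‖ ^ 2)⁻¹) ^ (7 / 8 : ℝ) = ‖z‖ ^ (-(7 / 4) : ℝ) := by
        rw [← Real.rpow_natCast, ← Real.rpow_neg hz0.le, ← Real.rpow_mul hz0.le]
        norm_num
      rw [e]
      unfold wz
      have h3 : (1 : ℝ) ≤ m z := by exact_mod_cast h.mpos z (hS z hz)
      exact le_mul_of_one_le_left (by positivity) h3
    calc ‖1 - t * (z ^ 2)⁻¹‖ * ‖1 - t * (starRingEnd ℂ) ((z ^ 2)⁻¹)‖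
        ≤ Real.exp (8 / 7 * y ^ (7 / 8 : ℝ)) * Real.exp (8 / 7 * y ^ (7 / 8 : ℝ)) :=
          mul_le_mul (a1.trans a3) (a2.trans a3) (norm_nonneg _) (Real.exp_pos _).le
      _ = Real.exp (16 / 7 * y ^ (7 / 8 : ℝ)) := by
          rw [← Real.exp_add]
          congr 1
          ring
      _ ≤ _ := Real.exp_le_exp.2 (by linarith)
  refine (Finset.prod_le_prod (fun z _ => norm_nonneg _) h1).trans ?_
  rw [← Real.exp_sum, Real.exp_le_exp, ← Finset.mul_sum, ← Finset.mul_sum]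
  have h2 := hB S hS
  have h3 : 0 ≤ ‖t‖ ^ (7 / 8 : ℝ) := by positivity
  have h4 := mul_le_mul_of_nonneg_left h2 h3
  nlinarith

/-- The product of the factors at a point is bounded from below. -/
theorem qd_prod_ge (h : ZS Z m) {t : ℂ} : ∃ b : ℝ, 0 < b ∧ ∀ (S : Finset ℂ),
    (∀ z ∈ S, z ∈ Z ∧ t ≠ z ^ 2 ∧ t ≠ (starRingEnd ℂ) (z ^ 2)) →
      b ≤ ‖aeval t (∏ z ∈ S, qd z)‖ := by
  classical
  obtain ⟨D, hD, hDb⟩ := zs_sq h
  obtain ⟨r, hr, hr1, hmin⟩ := zs_min h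
  obtain ⟨f, hf⟩ : ∃ f : Z → ℝ, f = fun z : Z =>
    if t ≠ (z : ℂ) ^ 2 ∧ t ≠ (starRingEnd ℂ) ((z : ℂ) ^ 2) then ‖aeval t (qd z)‖ else 1 := ⟨_, rfl⟩
  have hfpos : ∀ z, 0 < f z := by
    intro z
    rw [hf]
    simp only
    split_ifs with hz
    · have hz0 : (z : ℂ) ^ 2 ≠ 0 := pow_ne_zero _ (zs_ne h z.2)
      have hz0' : (starRingEnd ℂ) ((z : ℂ) ^ 2) ≠ 0 := by
        rw [Ne, map_eq_zero]
        exact hz0
      rw [norm_pos_iff, qd_aeval, map_inv₀]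
      refine mul_ne_zero ?_ ?_
      · rw [sub_ne_zero, ← div_eq_mul_inv]
        exact fun he => hz.1 (by rw [eq_div_iff hz0, one_mul] at he; exact he.symm)
      · rw [sub_ne_zero, ← div_eq_mul_inv]
        exact fun he => hz.2 (by rw [eq_div_iff hz0', one_mul] at he; exact he.symm)
    · exact one_pos
  have hsum : Summable fun z : Z => f z - 1 := by
    obtain ⟨A, hA⟩ : ∃ A : ℝ, A = 2 * ‖t‖ + ‖t‖ ^ 2 / r ^ 2 := ⟨_, rfl⟩
    have hA0 : 0 ≤ A := by rw [hA]; positivity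
    refine Summable.of_norm_bounded (g := fun z : Z => A * (D * wz m z))
      (((zs_summable h).mul_left D).mul_left A) fun z => ?_
    have hz0 : 0 < ‖(z : ℂ)‖ := norm_pos_iff.2 (zs_ne h z.2)
    rw [hf]
    simp only
    split_ifs with hz
    · have h1 : |‖aeval t (qd (z : ℂ))‖ - 1| ≤ ‖aeval t (qd (z : ℂ)) - 1‖ := by
        have := abs_norm_sub_norm_le (aeval t (qd (z : ℂ))) 1
        rwa [norm_one] at this
      rw [Real.norm_eq_abs]
      refine h1.trans ?_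
      obtain ⟨y, hy⟩ : ∃ y : ℝ, y = ‖t‖ * (‖(z : ℂ)‖ ^ 2)⁻¹ := ⟨_, rfl⟩
      have hy0 : 0 ≤ y := by rw [hy]; positivity
      have e : aeval t (qd (z : ℂ)) - 1 = -(t * ((z : ℂ) ^ 2)⁻¹) +
          (-(t * (starRingEnd ℂ) (((z : ℂ) ^ 2)⁻¹)) +
            t * ((z : ℂ) ^ 2)⁻¹ * (t * (starRingEnd ℂ) (((z : ℂ) ^ 2)⁻¹))) := by
        rw [qd_aeval]
        ring
      have a1 : ‖t * ((z : ℂ) ^ 2)⁻¹‖ = y := by
        rw [norm_mul, norm_inv, norm_pow, hy]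
      have a2 : ‖t * (starRingEnd ℂ) (((z : ℂ) ^ 2)⁻¹)‖ = y := by
        rw [norm_mul, Complex.norm_conj, norm_inv, norm_pow, hy]
      have h2 : ‖aeval t (qd (z : ℂ)) - 1‖ ≤ y + (y + y * y) := by
        rw [e]
        refine (norm_add_le _ _).trans (add_le_add (by rw [norm_neg, a1]) ?_)
        refine (norm_add_le _ _).trans (add_le_add (by rw [norm_neg, a2]) ?_)
        rw [norm_mul, a1, a2]
      refine h2.trans ?_
      have h3 : y ≤ ‖t‖ * (D * wz m z) := by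
        rw [hy]
        refine mul_le_mul_of_nonneg_left ?_ (norm_nonneg _)
        rw [← one_div]
        exact hDb z z.2
      have h4 : y ≤ ‖t‖ / r ^ 2 := by
        rw [hy, ← div_eq_mul_inv]
        exact div_le_div_of_nonneg_left (norm_nonneg _) (by positivity)
          (pow_le_pow_left₀ hr.le (hmin z z.2) 2)
      have hw : 0 ≤ D * wz m z := mul_nonneg hD.le (wz_nonneg m z)
      calc y + (y + y * y) = 2 * y + y * y := by ring
        _ ≤ 2 * (‖t‖ * (D * wz m z)) + ‖t‖ / r ^ 2 * (‖t‖ * (D * wz m z)) := by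
          have := mul_le_mul h4 h3 hy0 (by positivity)
          linarith
        _ = A * (D * wz m z) := by
          rw [hA]
          ring
    · rw [sub_self, norm_zero]
      exact mul_nonneg hA0 (mul_nonneg hD.le (wz_nonneg m z))
  have hlog : Summable fun z : Z => Real.log (f z) := by
    have := Real.summable_log_one_add_of_summable hsum
    simpa only [add_sub_cancel] using this
  refine ⟨Real.exp (-∑' z : Z, |Real.log (f z)|), Real.exp_pos _, fun S hS => ?_⟩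
  rw [map_prod, norm_prod]
  have hSZ : ∀ z ∈ S, z ∈ Z := fun z hz => (hS z hz).1
  obtain ⟨U, hU⟩ : ∃ U : Finset Z, S = U.map (Function.Embedding.subtype _) := by
    refine ⟨S.subtype (fun z => z ∈ Z), ?_⟩
    rw [Finset.subtype_map, Finset.filter_true_of_mem hSZ]
  have h1 : ∏ z ∈ S, ‖aeval t (qd z)‖ = ∏ z ∈ U, f z := by
    rw [hU, Finset.prod_map]
    refine Finset.prod_congr rfl fun z hz => ?_
    have h2 := hS z (by rw [hU]; exact Finset.mem_map_of_mem _ hz)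
    rw [hf]
    simp only [Function.Embedding.subtype_apply]
    rw [if_pos h2.2]
  rw [h1]
  have h2 : ∏ z ∈ U, f z = Real.exp (∑ z ∈ U, Real.log (f z)) := by
    rw [Real.exp_sum]
    exact Finset.prod_congr rfl fun z _ => (Real.exp_log (hfpos z)).symm
  rw [h2, Real.exp_le_exp]
  have h3 : ∑ z ∈ U, |Real.log (f z)| ≤ ∑' z : Z, |Real.log (f z)| :=
    hlog.abs.sum_le_tsum U fun z _ => abs_nonneg _
  have h4 : -∑ z ∈ U, |Real.log (f z)| ≤ ∑ z ∈ U, Real.log (f z) := by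
    rw [← Finset.sum_neg_distrib]
    exact Finset.sum_le_sum fun z _ => neg_abs_le _
  linarith

end Pool.Agent.Q225.CD
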