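import Pool.Agent.Q225.CD.NegA

/-!
# Project CD of helper240: job Neg, part 2 (Taylor polynomials of the cosine, Gaussian bounds)
-/

set_option autoImplicit false

open Polynomial Filter Topology Finset MeasureTheory Pool.Agent.Q240.CD

namespace Pool.Agent.Q225.CD

/-! ### Algebra -/

theorem kappa (w : ℂ) : ∃ κ : ℂ, ‖κ‖ ≤ 1 ∧ (w * κ) ^ 2 = -((‖w‖ ^ 2 : ℝ) : ℂ) := by
  by_cases hw : w = 0
  · exact ⟨0, by simp, by rw [hw]; simp⟩
  · have hw0 : ((‖w‖ : ℝ) : ℂ) ≠ 0 := Complex.ofReal_ne_zero.2 (norm_ne_zero_iff.2 hw)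
    refine ⟨Complex.I * (starRingEnd ℂ) w / (‖w‖ : ℂ), ?_, ?_⟩
    · rw [norm_div, norm_mul, Complex.norm_I, Complex.norm_conj, one_mul, Complex.norm_real,
        norm_norm]
      exact div_self_le_one _
    · have h1 : w * (Complex.I * (starRingEnd ℂ) w / (‖w‖ : ℂ)) = Complex.I * (‖w‖ : ℂ) := by
        have h2 : w * (starRingEnd ℂ) w = ((‖w‖ : ℝ) : ℂ) ^ 2 := by
          rw [Complex.mul_conj, Complex.normSq_eq_norm_sq]
          push_cast
          rfl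
        field_simp
        linear_combination h2
      rw [h1, mul_pow, Complex.I_sq]
      push_cast
      ring

theorem alphabeta (t w : ℂ) (ht : t.im ≠ 0) : ∃ α β : ℝ,
    (w * ((α : ℂ) + β * t)) ^ 2 = -((‖w‖ ^ 2 : ℝ) : ℂ) ∧
      |α| ≤ 1 + (1 + ‖t‖) / |t.im| ∧ |β| ≤ 1 + (1 + ‖t‖) / |t.im| := by
  obtain ⟨κ, hκ, hw⟩ := kappa w
  have hti : 0 < |t.im| := abs_pos.2 ht
  have hre : |κ.re| ≤ 1 := (Complex.abs_re_le_norm κ).trans hκ
  have him : |κ.im| ≤ 1 := (Complex.abs_im_le_norm κ).trans hκ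
  have hb : |κ.im / t.im| ≤ 1 / |t.im| := by
    rw [abs_div]
    exact div_le_div_of_nonneg_right him hti.le
  refine ⟨κ.re - κ.im / t.im * t.re, κ.im / t.im, ?_, ?_, ?_⟩
  · have e : (((κ.re - κ.im / t.im * t.re : ℝ) : ℂ)) + ((κ.im / t.im : ℝ) : ℂ) * t = κ := by
      apply Complex.ext
      · simp
      · simp
        field_simp
    rw [e]
    exact hw
  · have h1 : |κ.re - κ.im / t.im * t.re| ≤ |κ.re| + |κ.im / t.im| * |t.re| := by
      rw [← abs_mul]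
      exact abs_sub _ _
    have h2 : |κ.im / t.im| * |t.re| ≤ 1 / |t.im| * ‖t‖ :=
      mul_le_mul hb (Complex.abs_re_le_norm t) (abs_nonneg _) (by positivity)
    have h3 : (1 + ‖t‖) / |t.im| = 1 / |t.im| + 1 / |t.im| * ‖t‖ := by ring
    have h4 : 0 < 1 / |t.im| := by positivity
    linarith
  · have h3 : (1 + ‖t‖) / |t.im| = 1 / |t.im| + 1 / |t.im| * ‖t‖ := by ring
    have h4 : 0 ≤ 1 / |t.im| * ‖t‖ := by positivity
    linarith

/-! ### The cosine -/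

/-- Taylor polynomials of `cos (b x)` in the variable `x²`. -/
noncomputable def tau (b : ℝ) (N : ℕ) : ℝ[X] :=
  ∑ k ∈ range N, C ((-1) ^ k * b ^ (2 * k) / (2 * k).factorial) * X ^ k

theorem tau_aeval (b : ℝ) (N : ℕ) (z : ℂ) : aeval (z ^ 2) (tau b N) =
    ∑ k ∈ range N, (-1) ^ k * ((b : ℂ) * z) ^ (2 * k) / ((2 * k).factorial : ℂ) := by
  unfold tau
  rw [map_sum]
  refine Finset.sum_congr rfl fun k _ => ?_
  rw [map_mul, aeval_C, map_pow, aeval_X, Complex.coe_algebraMap]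
  push_cast
  rw [mul_pow, ← pow_mul]
  ring

theorem tau_tendsto (b : ℝ) (z : ℂ) :
    Tendsto (fun N => aeval (z ^ 2) (tau b N)) atTop (𝓝 (Complex.cos (b * z))) := by
  have h := (Complex.hasSum_cos ((b : ℂ) * z)).tendsto_sum_nat
  refine h.congr fun N => ?_
  rw [tau_aeval]

theorem tau_le {b : ℝ} (hb : 0 ≤ b) (N : ℕ) (z : ℂ) :
    ‖aeval (z ^ 2) (tau b N)‖ ≤ Real.exp (b * ‖z‖) := by
  rw [tau_aeval]
  have h1 : ‖∑ k ∈ range N, (-1) ^ k * ((b : ℂ) * z) ^ (2 * k) / ((2 * k).factorial : ℂ)‖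
      ≤ ∑ k ∈ range N, (b * ‖z‖) ^ (2 * k) / ((2 * k).factorial : ℝ) := by
    refine (norm_sum_le _ _).trans (Finset.sum_le_sum fun k _ => le_of_eq ?_)
    rw [norm_div, norm_mul, norm_pow, norm_pow, norm_neg, norm_one, one_pow, one_mul, norm_mul,
      Complex.norm_real, Real.norm_of_nonneg hb, Complex.norm_natCast]
  have h2 := sum_le_hasSum (range N) (fun k _ => by positivity) (Real.hasSum_cosh (b * ‖z‖))
  have h3 : Real.cosh (b * ‖z‖) ≤ Real.exp (b * ‖z‖) := by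
    rw [Real.cosh_eq]
    have h4 : Real.exp (-(b * ‖z‖)) ≤ Real.exp (b * ‖z‖) := by
      apply Real.exp_le_exp.2
      have : 0 ≤ b * ‖z‖ := by positivity
      linarith
    linarith
  exact h1.trans (h2.trans h3)

theorem cos_ge (b : ℝ) (hb : 0 ≤ b) (z : ℂ) : b * |z.im| / 2 ≤ ‖Complex.cos (b * z)‖ := by
  have key : ∀ y x : ℝ, 0 ≤ y → ∀ w : ℂ, (w.im = y ∨ w.im = -y) → y / 2 ≤ ‖Complex.cos w‖ := by
    intro y x hy w hw
    have e1 : ‖Complex.exp (w * Complex.I)‖ = Real.exp (-w.im) := by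
      rw [Complex.norm_exp]
      simp
    have e2 : ‖Complex.exp (-w * Complex.I)‖ = Real.exp w.im := by
      rw [Complex.norm_exp]
      simp
    have h1 : |Real.exp (-w.im) - Real.exp w.im| / 2 ≤ ‖Complex.cos w‖ := by
      rw [Complex.cos, norm_div]
      have e3 : ‖(2 : ℂ)‖ = 2 := by simp
      rw [e3]
      refine div_le_div_of_nonneg_right ?_ (by norm_num)
      have h2 := abs_norm_sub_norm_le (Complex.exp (w * Complex.I))
        (-Complex.exp (-w * Complex.I))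
      rw [norm_neg, e1, e2, sub_neg_eq_add] at h2
      exact h2
    have h3 : y ≤ |Real.exp (-w.im) - Real.exp w.im| := by
      have h4 : y ≤ Real.exp y - Real.exp (-y) := by
        have a1 := Real.add_one_le_exp y
        have a2 : Real.exp (-y) ≤ 1 := Real.exp_le_one_iff.2 (by linarith)
        linarith
      rcases hw with h | h
      · rw [h, abs_sub_comm]
        exact h4.trans (le_abs_self _)
      · rw [h, neg_neg]
        exact h4.trans (le_abs_self _)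
    linarith
  refine key (b * |z.im|) 0 (by positivity) _ ?_
  have e : ((b : ℂ) * z).im = b * z.im := by simp
  rw [e]
  rcases le_total 0 z.im with h | h
  · left; rw [abs_of_nonneg h]
  · right; rw [abs_of_nonpos h]; ring

/-! ### Gaussian bounds -/

theorem pow78_le' {y δ : ℝ} (hy : 0 ≤ y) (hδ : 0 < δ) : y ^ (7 / 8 : ℝ) ≤ δ * y + (1 / δ) ^ 7 := by
  have hd : 0 < 1 / δ := by positivity
  rcases le_total y ((1 / δ) ^ 8) with h | h
  · have h1 : y ^ (7 / 8 : ℝ) ≤ ((1 / δ) ^ 8) ^ (7 / 8 : ℝ) :=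
      Real.rpow_le_rpow hy h (by norm_num)
    have h2 : ((1 / δ) ^ 8) ^ (7 / 8 : ℝ) = (1 / δ) ^ 7 := by
      rw [← Real.rpow_natCast (1 / δ) 8, ← Real.rpow_natCast (1 / δ) 7, ← Real.rpow_mul hd.le]
      norm_num
    rw [h2] at h1
    have h3 : 0 ≤ δ * y := by positivity
    linarith
  · have hy0 : 0 < y := lt_of_lt_of_le (by positivity) h
    have h1 : 1 / δ ≤ y ^ (1 / 8 : ℝ) := by
      have h2 : ((1 / δ) ^ 8) ^ (1 / 8 : ℝ) ≤ y ^ (1 / 8 : ℝ) :=
        Real.rpow_le_rpow (by positivity) h (by norm_num)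
      have h3 : ((1 / δ) ^ 8) ^ (1 / 8 : ℝ) = 1 / δ := by
        rw [← Real.rpow_natCast (1 / δ) 8, ← Real.rpow_mul hd.le]
        norm_num
      rwa [h3] at h2
    have h4 : y = y ^ (7 / 8 : ℝ) * y ^ (1 / 8 : ℝ) := by
      rw [← Real.rpow_add hy0]
      norm_num
    have h5 : y ^ (7 / 8 : ℝ) ≤ δ * y := by
      have h6 : 0 < y ^ (7 / 8 : ℝ) := Real.rpow_pos_of_pos hy0 _
      have h7 : y ^ (7 / 8 : ℝ) * (1 / δ) ≤ y := by
        calc y ^ (7 / 8 : ℝ) * (1 / δ) ≤ y ^ (7 / 8 : ℝ) * y ^ (1 / 8 : ℝ) := by gcongr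
          _ = y := h4.symm
      calc y ^ (7 / 8 : ℝ) = δ * (y ^ (7 / 8 : ℝ) * (1 / δ)) := by field_simp
        _ ≤ δ * y := by gcongr
    have h6 : 0 ≤ (1 / δ) ^ 7 := by positivity
    linarith

/-- The majorant without the cosine. -/
noncomputable def G1 (A A1 r : ℝ) : ℝ := Real.exp (A * (r ^ 2) ^ (7 / 8 : ℝ)) * (A1 * (1 + r ^ 2))

theorem G1_nonneg {A A1 r : ℝ} (h1 : 0 ≤ A1) : 0 ≤ G1 A A1 r := by
  unfold G1
  positivity

theorem G1_cont (A A1 : ℝ) : Continuous (G1 A A1) := by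
  unfold G1
  have h : Continuous fun r : ℝ => (r ^ 2) ^ (7 / 8 : ℝ) :=
    (continuous_pow 2).rpow_const fun x => Or.inr (by norm_num)
  fun_prop

theorem gauss_le {A A1 b c : ℝ} (hA : 0 < A) (hc : 0 < c) :
    ∃ K : ℝ, 0 < K ∧ ∀ r : ℝ, 0 ≤ r →
      (G1 A A1 r * Real.exp (b * r)) ^ 2 * Real.exp (-(2 * c * r ^ 2)) ≤
        K * Real.exp (-c * r ^ 2) := by
  obtain ⟨δ, hδ⟩ : ∃ δ, δ = c / (8 * A) := ⟨_, rfl⟩
  have hδ0 : 0 < δ := by rw [hδ]; positivity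
  obtain ⟨D, hD⟩ : ∃ D, D = max 1 (4 / c) := ⟨_, rfl⟩
  have hD1 : 1 ≤ D := by rw [hD]; exact le_max_left _ _
  have hD2 : 4 / c ≤ D := by rw [hD]; exact le_max_right _ _
  refine ⟨Real.exp (2 * A * (1 / δ) ^ 7) * Real.exp (4 * b ^ 2 / c) * (A1 * D) ^ 2 + 1,
    by positivity, fun r hr => ?_⟩
  have h1 : Real.exp (A * (r ^ 2) ^ (7 / 8 : ℝ)) ^ 2
      ≤ Real.exp (2 * A * (1 / δ) ^ 7) * Real.exp (c / 4 * r ^ 2) := by
    rw [← Real.exp_nat_mul, ← Real.exp_add, Real.exp_le_exp]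
    have h2 := pow78_le' (sq_nonneg r) hδ0
    have h3 : 2 * A * (δ * r ^ 2) = c / 4 * r ^ 2 := by
      rw [hδ]
      field_simp
      ring
    push_cast
    calc 2 * (A * (r ^ 2) ^ (7 / 8 : ℝ)) = 2 * A * (r ^ 2) ^ (7 / 8 : ℝ) := by ring
      _ ≤ 2 * A * (δ * r ^ 2 + (1 / δ) ^ 7) := by gcongr
      _ = 2 * A * (δ * r ^ 2) + 2 * A * (1 / δ) ^ 7 := by ring
      _ = _ := by rw [h3]; ring
  have h2 : Real.exp (b * r) ^ 2 ≤ Real.exp (4 * b ^ 2 / c) * Real.exp (c / 4 * r ^ 2) := by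
    rw [← Real.exp_nat_mul, ← Real.exp_add, Real.exp_le_exp]
    push_cast
    have h3 : 4 * b ^ 2 / c + c / 4 * r ^ 2 - 2 * (b * r) = (2 * b - c / 2 * r) ^ 2 / c := by
      field_simp
      ring
    have h4 : 0 ≤ (2 * b - c / 2 * r) ^ 2 / c := by positivity
    linarith
  have h3 : (A1 * (1 + r ^ 2)) ^ 2 ≤ (A1 * D) ^ 2 * Real.exp (c / 2 * r ^ 2) := by
    have h4 : 1 + r ^ 2 ≤ D * Real.exp (c / 4 * r ^ 2) := by
      have h5 := Real.add_one_le_exp (c / 4 * r ^ 2)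
      have h6 : 4 / c * (c / 4 * r ^ 2) = r ^ 2 := by
        field_simp
      have h7 : 0 ≤ c / 4 * r ^ 2 := by positivity
      calc 1 + r ^ 2 = 1 + 4 / c * (c / 4 * r ^ 2) := by rw [h6]
        _ ≤ D + D * (c / 4 * r ^ 2) := by gcongr
        _ = D * (c / 4 * r ^ 2 + 1) := by ring
        _ ≤ _ := by gcongr
    have h5 : (1 + r ^ 2) ^ 2 ≤ (D * Real.exp (c / 4 * r ^ 2)) ^ 2 :=
      pow_le_pow_left₀ (by positivity) h4 2
    have h6 : Real.exp (c / 4 * r ^ 2) ^ 2 = Real.exp (c / 2 * r ^ 2) := by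
      rw [← Real.exp_nat_mul]
      congr 1
      push_cast
      ring
    calc (A1 * (1 + r ^ 2)) ^ 2 = A1 ^ 2 * (1 + r ^ 2) ^ 2 := by ring
      _ ≤ A1 ^ 2 * (D * Real.exp (c / 4 * r ^ 2)) ^ 2 := by gcongr
      _ = (A1 * D) ^ 2 * Real.exp (c / 4 * r ^ 2) ^ 2 := by ring
      _ = _ := by rw [h6]
  have hE : Real.exp (c / 4 * r ^ 2) * Real.exp (c / 4 * r ^ 2) * Real.exp (c / 2 * r ^ 2)
      * Real.exp (-(2 * c * r ^ 2)) = Real.exp (-c * r ^ 2) := by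
    rw [← Real.exp_add, ← Real.exp_add, ← Real.exp_add]
    congr 1
    ring
  calc (G1 A A1 r * Real.exp (b * r)) ^ 2 * Real.exp (-(2 * c * r ^ 2))
      = Real.exp (A * (r ^ 2) ^ (7 / 8 : ℝ)) ^ 2 * Real.exp (b * r) ^ 2
          * (A1 * (1 + r ^ 2)) ^ 2 * Real.exp (-(2 * c * r ^ 2)) := by
        unfold G1
        ring
    _ ≤ (Real.exp (2 * A * (1 / δ) ^ 7) * Real.exp (c / 4 * r ^ 2))
        * (Real.exp (4 * b ^ 2 / c) * Real.exp (c / 4 * r ^ 2))
        * ((A1 * D) ^ 2 * Real.exp (c / 2 * r ^ 2)) * Real.exp (-(2 * c * r ^ 2)) := by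
        gcongr
    _ = Real.exp (2 * A * (1 / δ) ^ 7) * Real.exp (4 * b ^ 2 / c) * (A1 * D) ^ 2
        * (Real.exp (c / 4 * r ^ 2) * Real.exp (c / 4 * r ^ 2) * Real.exp (c / 2 * r ^ 2)
          * Real.exp (-(2 * c * r ^ 2))) := by ring
    _ = Real.exp (2 * A * (1 / δ) ^ 7) * Real.exp (4 * b ^ 2 / c) * (A1 * D) ^ 2
        * Real.exp (-c * r ^ 2) := by rw [hE]
    _ ≤ _ := by
        refine mul_le_mul_of_nonneg_right ?_ (Real.exp_pos _).le
        linarith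

theorem gauss_wz {c : ℝ} (hc : 0 < c) {r : ℝ} (hr : 0 < r) :
    Real.exp (-c * r ^ 2) ≤ (1 + 1 / c) * r ^ (-(7 / 4) : ℝ) := by
  rcases le_total r 1 with h | h
  · have h1 : Real.exp (-c * r ^ 2) ≤ 1 := Real.exp_le_one_iff.2 (by
      have : 0 ≤ c * r ^ 2 := by positivity
      linarith)
    have h2 : 1 ≤ r ^ (-(7 / 4) : ℝ) := Real.one_le_rpow_of_pos_of_le_one_of_nonpos hr h (by norm_num)
    have h3 : 0 < 1 / c := by positivity
    nlinarith
  · have h1 : Real.exp (-c * r ^ 2) ≤ 1 / (c * r ^ 2) := by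
      have h2 : c * r ^ 2 ≤ Real.exp (c * r ^ 2) := by
        have := Real.add_one_le_exp (c * r ^ 2)
        linarith
      have e : -c * r ^ 2 = -(c * r ^ 2) := by ring
      rw [e, Real.exp_neg, ← one_div]
      exact one_div_le_one_div_of_le (by positivity) h2
    have h2 : 1 / r ^ 2 ≤ r ^ (-(7 / 4) : ℝ) := by
      have e : 1 / r ^ 2 = r ^ (-2 : ℝ) := by
        rw [Real.rpow_neg hr.le, one_div]
        norm_num
      rw [e]
      exact Real.rpow_le_rpow_of_exponent_le h (by norm_num)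
    have e : 1 / (c * r ^ 2) = 1 / c * (1 / r ^ 2) := by
      field_simp
    rw [e] at h1
    have h3 : 0 < 1 / c := by positivity
    have h4 : 0 ≤ r ^ (-(7 / 4) : ℝ) := by positivity
    have h5 := mul_le_mul_of_nonneg_left h2 h3.le
    nlinarith

/-- positivity of the Gaussian norm -/
theorem int_pos {c : ℝ} {P : ℝ[X]} (hP : P ≠ 0)
    (hi : Integrable fun x : ℝ => P.eval x ^ 2 * Real.exp (-(2 * c * x ^ 2))) :
    0 < ∫ x : ℝ, P.eval x ^ 2 * Real.exp (-(2 * c * x ^ 2)) := by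
  have h0 : 0 ≤ fun x : ℝ => P.eval x ^ 2 * Real.exp (-(2 * c * x ^ 2)) := fun x => by positivity
  rw [integral_pos_iff_support_of_nonneg h0 hi]
  have hcont : Continuous fun x : ℝ => P.eval x ^ 2 * Real.exp (-(2 * c * x ^ 2)) := by
    have := P.continuous
    fun_prop
  refine hcont.isOpen_support.measure_pos volume ?_
  obtain ⟨x, hx⟩ : ∃ x : ℝ, P.eval x ≠ 0 := by
    by_contra hcon
    push Not at hcon
    exact hP (Polynomial.funext fun x => by rw [hcon x, eval_zero])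
  exact ⟨x, (mul_pos (by positivity) (Real.exp_pos _)).ne'⟩

end Pool.Agent.Q225.CD
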