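import Pool.Agent.Q240.CD.Stm
import Pool.Agent.Q280.CD2.Ext
import Pool.Agent.Q280.CD2.Low

/-!
# Project CD of helper240: job Q0 (convergence of the extremal polynomials)
-/

set_option autoImplicit false

open Polynomial Filter Topology Finset MeasureTheory Pool.Agent.Q240.CD

namespace Pool.Agent.Q225.CD

/-- The extremal polynomial as a product. -/
theorem coeffs (hZ : S_Zer) {g M : ℕ → ℝ} {n : ℕ} {q0 : ℝ[X]} (h : PM g M n)
    (hq0 : Ex g M n 0 q0) : ∃ (a : ℕ → ℝ) (d : ℕ), (∀ j, 0 ≤ a j) ∧ (∀ j, a j ≤ 1 / g j) ∧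
      (∀ j, d ≤ j → a j = 0) ∧ ∀ x : ℝ, q0.eval x = ∏ j ∈ range d, (1 - x * a j) := by
  have hg : ∀ j, 0 < g j := fun j => lt_of_lt_of_le h.pos (h.mono.monotone (Nat.zero_le j))
  obtain ⟨c, A, hA, hq, hc1, hc2, hc3⟩ := hZ g M n h 0 q0 (fun j => (hg j).ne') hq0
  have hc3 := hc3 rfl
  have hc : ∀ j ∈ range q0.natDegree, 0 < c j := fun j hj =>
    (hg j).trans (hc3 j (Finset.mem_range.1 hj))
  have heval : ∀ x : ℝ, q0.eval x = A * ∏ j ∈ range q0.natDegree, (x - c j) := by
    intro x
    conv_lhs => rw [hq]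
    rw [eval_mul, eval_C, eval_prod]
    simp
  have h1 : ∀ t : ℝ, q0.eval t = ∏ j ∈ range q0.natDegree, (1 - t / c j) := by
    intro t
    have h2 := hq0.2.1
    rw [heval] at h2
    have h3 : ∏ j ∈ range q0.natDegree, (t - c j) =
        (∏ j ∈ range q0.natDegree, (0 - c j)) * ∏ j ∈ range q0.natDegree, (1 - t / c j) := by
      rw [← Finset.prod_mul_distrib]
      refine Finset.prod_congr rfl fun j hj => ?_
      field_simp [(hc j hj).ne']
      ring
    rw [heval, h3, ← mul_assoc, h2, one_mul]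
  refine ⟨fun j => if j < q0.natDegree then 1 / c j else 0, q0.natDegree, fun j => ?_, fun j => ?_,
    fun j hj => if_neg (not_lt.2 hj), fun x => ?_⟩
  · simp only
    split_ifs with hj
    · exact (div_pos one_pos (hc j (Finset.mem_range.2 hj))).le
    · exact le_rfl
  · simp only
    split_ifs with hj
    · exact one_div_le_one_div_of_le (hg j) (hc3 j hj).le
    · exact (div_pos one_pos (hg j)).le
  · rw [h1 x]
    refine Finset.prod_congr rfl fun j hj => ?_
    simp only [if_pos (Finset.mem_range.1 hj)]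
    ring

/-- JOB Q0. -/
theorem q0conv (hZ : S_Zer) (hD : S_Del) : S_Q0 := by
  intro ι l g μ N M hF q0 hq0 t
  rcases l.eq_or_neBot with rfl | hl
  · exact tendsto_bot
  obtain ⟨i0, hi0⟩ := hF.pm.exists
  have hmono := hi0.mono
  have h0 := hi0.pos
  have hg : ∀ j, 0 < g j := fun j => lt_of_lt_of_le h0 (hmono.monotone (Nat.zero_le j))
  have hch : ∀ i, ∃ a : ℕ → ℝ, (PM g (M i) (N i) ∧ Ex g (M i) (N i) 0 (q0 i)) →
      ∃ d : ℕ, (∀ j, 0 ≤ a j) ∧ (∀ j, a j ≤ 1 / g j) ∧
      (∀ j, d ≤ j → a j = 0) ∧ ∀ x : ℝ, (q0 i).eval x = ∏ j ∈ range d, (1 - x * a j) := by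
    intro i
    by_cases hi : PM g (M i) (N i) ∧ Ex g (M i) (N i) 0 (q0 i)
    · obtain ⟨a, d, h⟩ := coeffs hZ hi.1 hi.2
      exact ⟨a, fun _ => ⟨d, h⟩⟩
    · exact ⟨fun _ => 0, fun h => absurd h hi⟩
  choose a ha using hch
  have hev : ∀ᶠ i in l, ∃ d : ℕ, (∀ j, 0 ≤ a i j) ∧ (∀ j, a i j ≤ 1 / g j) ∧
      (∀ j, d ≤ j → a i j = 0) ∧ ∀ x : ℝ, (q0 i).eval x = ∏ j ∈ range d, (1 - x * a i j) := by
    filter_upwards [hF.pm, hq0] with i h1 h2 using ha i ⟨h1, h2⟩
  have hdel := hD l g μ N M hF q0 hq0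
  -- the values at the nodes tend to zero
  have hval : ∀ k, Tendsto (fun i => (q0 i).eval (g k)) l (𝓝 0) := by
    intro k
    have hμ := hF.mpos k
    have h1 : Tendsto (fun i => √(2 / μ k * Lam g (M i) (q0 i * q0 i))) l (𝓝 0) := by
      have h2 := (hdel.const_mul (2 / μ k)).sqrt
      rwa [mul_zero, Real.sqrt_zero] at h2
    refine squeeze_zero_norm' ?_ h1
    filter_upwards [hF.pm, hq0, (hF.lim k).eventually (lt_mem_nhds (half_lt_self hμ))] with i hp hq hm
    have hs := Pool.Agent.Q280.CD2.summable_eval hp (q0 i * q0 i)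
      (Pool.Agent.Q280.CD2.deg_mul hq.1 hq.1)
    have hle : M i k * (q0 i * q0 i).eval (g k) ≤ Lam g (M i) (q0 i * q0 i) :=
      hs.le_tsum k fun j _ => mul_nonneg (hp.nonneg j) (by rw [eval_mul]; exact mul_self_nonneg _)
    rw [eval_mul] at hle
    rw [Real.norm_eq_abs]
    refine Real.abs_le_sqrt ?_
    have h3 : μ k / 2 * ((q0 i).eval (g k)) ^ 2 ≤ Lam g (M i) (q0 i * q0 i) := by
      refine le_trans ?_ hle
      rw [← sq]
      exact mul_le_mul_of_nonneg_right hm.le (sq_nonneg _)
    rw [div_mul_eq_mul_div, le_div_iff₀ hμ]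
    linarith
  -- the inverse zeros converge
  have hconv : ∀ k, Tendsto (fun i => a i k) l (𝓝 (1 / g k)) := by
    intro k
    induction k using Nat.strong_induction_on with
    | _ k ih =>
    have hP : Tendsto (fun i => ∏ j ∈ range k, (1 - g k * a i j)) l
        (𝓝 (∏ j ∈ range k, (1 - g k * (1 / g j)))) :=
      tendsto_finsetProd _ fun j hj => ((ih j (Finset.mem_range.1 hj)).const_mul (g k)).const_sub 1
    have hP0 : ∏ j ∈ range k, (1 - g k * (1 / g j)) ≠ 0 := by
      refine Finset.prod_ne_zero_iff.2 fun j hj => ?_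
      have h1 : g j < g k := hmono (Finset.mem_range.1 hj)
      have h2 : 1 < g k / g j := (one_lt_div (hg j)).2 h1
      have h3 : g k * (1 / g j) = g k / g j := by ring
      rw [h3]
      linarith
    obtain ⟨hc, hc'⟩ := Pool.Agent.Q280.CD2.GG_pos (g := fun j => g (k + 1 + j))
      (fun i j hij => hmono (by omega)) (hg _)
      (hF.gsum.comp_injective (add_right_injective (k + 1))) (t := g k) (hg k).le
      (hmono (by omega))
    obtain ⟨c, hcd⟩ : ∃ c, c = GG (fun j => g (k + 1 + j)) (g k) := ⟨_, rfl⟩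
    rw [← hcd] at hc hc'
    have hbd : ∀ᶠ i in l, ‖1 - g k * a i k‖
        ≤ |(q0 i).eval (g k)| / (|∏ j ∈ range k, (1 - g k * a i j)| * c) := by
      filter_upwards [hev, hP.eventually (isOpen_ne.mem_nhds hP0)] with i hi hPi
      obtain ⟨d, hd1, hd2, hd3, hd4⟩ := hi
      have h1 : (q0 i).eval (g k) = ∏ j ∈ range (max d (k + 1)), (1 - g k * a i j) := by
        rw [hd4]
        refine Finset.prod_subset (range_mono (le_max_left _ _)) fun j _ hj => ?_
        rw [hd3 j (by simpa using hj), mul_zero, sub_zero]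
      have h2 : ∏ j ∈ range (max d (k + 1)), (1 - g k * a i j)
          = (∏ j ∈ range k, (1 - g k * a i j)) * (1 - g k * a i k) *
            ∏ j ∈ Ico (k + 1) (max d (k + 1)), (1 - g k * a i j) := by
        rw [← Finset.prod_range_succ, Finset.prod_range_mul_prod_Ico _ (le_max_right _ _)]
      have h3 : c ≤ ∏ j ∈ Ico (k + 1) (max d (k + 1)), (1 - g k * a i j) := by
        rw [Finset.prod_Ico_eq_prod_range]
        refine (hc' _).trans (Finset.prod_le_prod (fun j _ => ?_) fun j _ => ?_)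
        · have h4 : g k < g (k + 1 + j) := hmono (by omega)
          have h5 : g k / g (k + 1 + j) < 1 := (div_lt_one (hg _)).2 h4
          linarith
        · have h4 := mul_le_mul_of_nonneg_left (hd2 (k + 1 + j)) (hg k).le
          have h5 : g k * (1 / g (k + 1 + j)) = g k / g (k + 1 + j) := by ring
          rw [h5] at h4
          linarith
      have hPp : 0 < |∏ j ∈ range k, (1 - g k * a i j)| := abs_pos.2 hPi
      rw [Real.norm_eq_abs, le_div_iff₀ (mul_pos hPp hc), h1, h2, abs_mul, abs_mul]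
      have h6 : 0 ≤ |∏ j ∈ range k, (1 - g k * a i j)| * |1 - g k * a i k| := by positivity
      have h7 : c ≤ |∏ j ∈ Ico (k + 1) (max d (k + 1)), (1 - g k * a i j)| :=
        h3.trans (le_abs_self _)
      calc |1 - g k * a i k| * (|∏ j ∈ range k, (1 - g k * a i j)| * c)
          = |∏ j ∈ range k, (1 - g k * a i j)| * |1 - g k * a i k| * c := by ring
        _ ≤ _ := mul_le_mul_of_nonneg_left h7 h6
    have hlim : Tendsto (fun i => |(q0 i).eval (g k)| /
        (|∏ j ∈ range k, (1 - g k * a i j)| * c)) l (𝓝 0) := by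
      have h1 := (hval k).abs.div (hP.abs.mul_const c) (mul_ne_zero (abs_ne_zero.2 hP0) hc.ne')
      rwa [abs_zero, zero_div] at h1
    have h2 := squeeze_zero_norm' hbd hlim
    have h3 := (h2.const_sub 1).div_const (g k)
    rw [sub_zero] at h3
    refine h3.congr fun i => ?_
    have := (hg k).ne'
    field_simp
    ring
  -- the limit of the products
  have hmain := tendsto_tprod_one_add_of_dominated_convergence (𝓕 := l)
    (f := fun i j => -(t * a i j)) (g := fun j => -(t / g j)) (bound := fun j => |t| * (1 / g j))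
    (hF.gsum.mul_left |t|) (fun j => ?_) ?_
  · have e : ∏' j, (1 + -(t / g j)) = GG g t := by
      unfold GG
      exact tprod_congr fun j => by ring
    rw [e] at hmain
    refine (hmain.congr' ?_)
    filter_upwards [hev] with i hi
    obtain ⟨d, hd1, hd2, hd3, hd4⟩ := hi
    rw [hd4, tprod_eq_prod (s := range d)]
    · exact Finset.prod_congr rfl fun j _ => by ring
    · intro j hj
      rw [hd3 j (by simpa using hj)]
      simp
  · have h1 := ((hconv j).const_mul t).neg
    have h2 : t / g j = t * (1 / g j) := by ring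
    rw [h2]
    exact h1
  · filter_upwards [hev] with i hi
    obtain ⟨d, hd1, hd2, hd3, hd4⟩ := hi
    intro j
    rw [norm_neg, norm_mul, Real.norm_eq_abs, Real.norm_eq_abs, abs_of_nonneg (hd1 j)]
    exact mul_le_mul_of_nonneg_left (hd2 j) (abs_nonneg t)

end Pool.Agent.Q225.CD
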