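import Pool.Agent.Q240.CD.Stm2

/-!
# Project CD of helper240: job WtsZ (the weights given by the products `S`)
-/

set_option autoImplicit false

open Polynomial Filter Topology Finset MeasureTheory Pool.Agent.Q240.CD

namespace Pool.Agent.Q225.CD

/-! ### Elementary bounds -/

theorem pow78_le {y δ : ℝ} (hy : 0 ≤ y) (hδ : 0 < δ) : y ^ (7 / 8 : ℝ) ≤ δ * y + (1 / δ) ^ 7 := by
  have hd : 0 < 1 / δ := by positivity
  rcases le_total y ((1 / δ) ^ 8) with h | h
  · have h1 : y ^ (7 / 8 : ℝ) ≤ ((1 / δ) ^ 8) ^ (7 / 8 : ℝ) :=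
      Real.rpow_le_rpow hy h (by norm_num)
    have h2 : ((1 / δ) ^ 8) ^ (7 / 8 : ℝ) = (1 / δ) ^ 7 := by
      rw [← Real.rpow_natCast (1 / δ) 8, ← Real.rpow_natCast (1 / δ) 7, ← Real.rpow_mul hd.le]
      norm_num
    rw [h2] at h1
    have h3 : 0 ≤ δ * y := by positivity
    linarith
  · have hy0 : 0 < y := lt_of_lt_of_le (by positivity) h
    have h1 : 1 / δ ≤ y ^ (1 / 8 : ℝ) := by
      have h2 : ((1 / δ) ^ 8) ^ (1 / 8 : ℝ) ≤ y ^ (1 / 8 : ℝ) :=
        Real.rpow_le_rpow (by positivity) h (by norm_num)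
      have h3 : ((1 / δ) ^ 8) ^ (1 / 8 : ℝ) = 1 / δ := by
        rw [← Real.rpow_natCast (1 / δ) 8, ← Real.rpow_mul hd.le]
        norm_num
      rwa [h3] at h2
    have h4 : y = y ^ (7 / 8 : ℝ) * y ^ (1 / 8 : ℝ) := by
      rw [← Real.rpow_add hy0]
      norm_num
    have h5 : y ^ (7 / 8 : ℝ) ≤ δ * y := by
      have h6 : 0 < y ^ (7 / 8 : ℝ) := Real.rpow_pos_of_pos hy0 _
      have h7 : y ^ (7 / 8 : ℝ) * (1 / δ) ≤ y := by
        calc y ^ (7 / 8 : ℝ) * (1 / δ) ≤ y ^ (7 / 8 : ℝ) * y ^ (1 / 8 : ℝ) := by gcongr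
          _ = y := h4.symm
      calc y ^ (7 / 8 : ℝ) = δ * (y ^ (7 / 8 : ℝ) * (1 / δ)) := by field_simp
        _ ≤ δ * y := by gcongr
    have h6 : 0 ≤ (1 / δ) ^ 7 := by positivity
    linarith

theorem mj_nonneg (g : ℕ → ℝ) (n : ℕ) (t : ℝ) : 0 ≤ mj g n t :=
  Finset.prod_nonneg fun j _ => le_trans zero_le_one (le_max_left _ _)

theorem mj_le_pow {g : ℕ → ℝ} (hm : StrictMono g) (h0 : 0 < g 0) (n : ℕ) {t : ℝ} (ht : 0 ≤ t) :
    mj g n t ≤ (max 1 (1 / g 0) * (1 + t)) ^ n := by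
  unfold mj
  have h1 : ∏ j ∈ range n, max 1 (t / g j) ≤ ∏ _j ∈ range n, (max 1 (1 / g 0) * (1 + t)) := by
    refine Finset.prod_le_prod (fun _ _ => le_trans zero_le_one (le_max_left _ _)) fun j _ => ?_
    have hg : g 0 ≤ g j := hm.monotone (Nat.zero_le j)
    have a1 : (1 : ℝ) ≤ max 1 (1 / g 0) := le_max_left _ _
    have a2 : 1 / g 0 ≤ max 1 (1 / g 0) := le_max_right _ _
    refine max_le ?_ ?_
    · nlinarith
    · calc t / g j ≤ t / g 0 := div_le_div_of_nonneg_left ht h0 hg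
        _ = 1 / g 0 * t := by ring
        _ ≤ max 1 (1 / g 0) * (1 + t) := by
          refine mul_le_mul a2 (by linarith) ht (by positivity)
  rwa [Finset.prod_const, Finset.card_range] at h1

theorem mj_scale (g : ℕ → ℝ) (n : ℕ) {s t : ℝ} (hs : 1 ≤ s) :
    mj g n (s * t) ≤ s ^ n * mj g n t := by
  unfold mj
  have h1 : s ^ n = ∏ _j ∈ range n, s := by rw [Finset.prod_const, Finset.card_range]
  rw [h1, ← Finset.prod_mul_distrib]
  refine Finset.prod_le_prod (fun j _ => le_trans zero_le_one (le_max_left _ _)) fun j _ => ?_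
  have a1 : (1 : ℝ) ≤ max 1 (t / g j) := le_max_left _ _
  have a2 : t / g j ≤ max 1 (t / g j) := le_max_right _ _
  refine max_le ?_ ?_
  · nlinarith
  · rw [mul_div_assoc]
    exact mul_le_mul_of_nonneg_left a2 (by linarith)

theorem MJ_nonneg (g : ℕ → ℝ) (n : ℕ) (x : ℝ) : 0 ≤ MJ g n x := by
  unfold MJ
  positivity

theorem mj_cont (g : ℕ → ℝ) (n : ℕ) : Continuous (mj g n) := by
  unfold mj
  exact continuous_finsetProd _ fun j _ => continuous_const.max (continuous_id.div_const _)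

theorem MJ_cont (g : ℕ → ℝ) (n : ℕ) : Continuous (MJ g n) := by
  unfold MJ
  have h1 := (mj_cont g (n - 1)).comp (continuous_pow (M := ℝ) 2)
  have h2 := (mj_cont g (n - 2)).comp (continuous_pow (M := ℝ) 2)
  have h1' : Continuous fun x : ℝ => mj g (n - 1) (x ^ 2) := h1
  have h2' : Continuous fun x : ℝ => mj g (n - 2) (x ^ 2) := h2
  fun_prop

theorem MJ_le {g : ℕ → ℝ} (hm : StrictMono g) (h0 : 0 < g 0) {n : ℕ} (hn : 2 ≤ n) :
    ∃ C : ℝ, 0 ≤ C ∧ ∀ x : ℝ, MJ g n x ≤ C * (1 + x ^ 2) ^ (2 * n) := by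
  obtain ⟨D, hD⟩ : ∃ D : ℝ, D = max 1 (1 / g 0) := ⟨_, rfl⟩
  have hD1 : 1 ≤ D := by rw [hD]; exact le_max_left _ _
  refine ⟨2 * D ^ (2 * n), by positivity, fun x => ?_⟩
  obtain ⟨m, rfl⟩ : ∃ m, n = m + 2 := ⟨n - 2, by omega⟩
  have hy : 0 ≤ x ^ 2 := sq_nonneg x
  obtain ⟨y, hyd⟩ : ∃ y, y = x ^ 2 := ⟨_, rfl⟩
  rw [← hyd] at hy
  have h1 := mj_le_pow hm h0 (m + 1) hy
  have h2 := mj_le_pow hm h0 m hy
  rw [← hD] at h1 h2
  have e1 : m + 2 - 1 = m + 1 := by omega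
  have e2 : m + 2 - 2 = m := by omega
  unfold MJ
  rw [e1, e2, ← hyd]
  have b1 : mj g (m + 1) y ^ 2 ≤ ((D * (1 + y)) ^ (m + 1)) ^ 2 :=
    pow_le_pow_left₀ (mj_nonneg _ _ _) h1 2
  have b2 : mj g m y ^ 2 ≤ ((D * (1 + y)) ^ m) ^ 2 :=
    pow_le_pow_left₀ (mj_nonneg _ _ _) h2 2
  have c1 : ((D * (1 + y)) ^ (m + 1)) ^ 2 ≤ D ^ (2 * (m + 2)) * (1 + y) ^ (2 * (m + 1)) := by
    calc ((D * (1 + y)) ^ (m + 1)) ^ 2 = D ^ (2 * (m + 1)) * (1 + y) ^ (2 * (m + 1)) := by
          rw [mul_pow]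
          ring
      _ ≤ D ^ (2 * (m + 2)) * (1 + y) ^ (2 * (m + 1)) := by
        refine mul_le_mul_of_nonneg_right (pow_le_pow_right₀ hD1 (by omega)) (by positivity)
  have c2 : y * ((D * (1 + y)) ^ m) ^ 2 ≤ D ^ (2 * (m + 2)) * (1 + y) ^ (2 * (m + 1)) := by
    calc y * ((D * (1 + y)) ^ m) ^ 2 = D ^ (2 * m) * (y * (1 + y) ^ (2 * m)) := by
          rw [mul_pow]
          ring
      _ ≤ D ^ (2 * (m + 2)) * ((1 + y) ^ 2 * (1 + y) ^ (2 * m)) := by
        refine mul_le_mul (pow_le_pow_right₀ hD1 (by omega))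
          (mul_le_mul_of_nonneg_right (by nlinarith) (by positivity)) (by positivity)
          (by positivity)
      _ = D ^ (2 * (m + 2)) * (1 + y) ^ (2 * (m + 1)) := by ring
  have d2 : y * mj g m y ^ 2 ≤ y * ((D * (1 + y)) ^ m) ^ 2 := mul_le_mul_of_nonneg_left b2 hy
  calc (1 + y) ^ 2 * (mj g (m + 1) y ^ 2 + y * mj g m y ^ 2)
      ≤ (1 + y) ^ 2 * (2 * (D ^ (2 * (m + 2)) * (1 + y) ^ (2 * (m + 1)))) := by
        refine mul_le_mul_of_nonneg_left ?_ (by positivity)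
        linarith
    _ = 2 * D ^ (2 * (m + 2)) * (1 + y) ^ (2 * (m + 2)) := by ring

/-- the bound of the majorant in the near range -/
theorem MJ_near {g : ℕ → ℝ} {C : ℝ} (hM : ∀ (n : ℕ) (t : ℝ), 0 ≤ t →
    mj g n t ≤ Real.exp (C * t ^ (7 / 8 : ℝ))) (n : ℕ) (x : ℝ) :
    MJ g n x ≤ (1 + x ^ 2) ^ 3 * Real.exp (2 * C * (x ^ 2) ^ (7 / 8 : ℝ)) := by
  have hy : 0 ≤ x ^ 2 := sq_nonneg x
  unfold MJ
  obtain ⟨y, hyd⟩ : ∃ y, y = x ^ 2 := ⟨_, rfl⟩
  rw [← hyd] at hy ⊢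
  have e : Real.exp (2 * C * y ^ (7 / 8 : ℝ)) = Real.exp (C * y ^ (7 / 8 : ℝ)) ^ 2 := by
    rw [← Real.exp_nat_mul]
    congr 1
    push_cast
    ring
  have b1 : mj g (n - 1) y ^ 2 ≤ Real.exp (C * y ^ (7 / 8 : ℝ)) ^ 2 :=
    pow_le_pow_left₀ (mj_nonneg _ _ _) (hM _ y hy) 2
  have b2 : mj g (n - 2) y ^ 2 ≤ Real.exp (C * y ^ (7 / 8 : ℝ)) ^ 2 :=
    pow_le_pow_left₀ (mj_nonneg _ _ _) (hM _ y hy) 2
  rw [e]
  have d2 := mul_le_mul_of_nonneg_left b2 hy
  calc (1 + y) ^ 2 * (mj g (n - 1) y ^ 2 + y * mj g (n - 2) y ^ 2)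
      ≤ (1 + y) ^ 2 * ((1 + y) * Real.exp (C * y ^ (7 / 8 : ℝ)) ^ 2) := by
        refine mul_le_mul_of_nonneg_left ?_ (by positivity)
        linarith
    _ = _ := by ring

/-- the bound of the majorant in the far range -/
theorem MJ_far {g : ℕ → ℝ} {C : ℝ} (hM : ∀ (n : ℕ) (t : ℝ), 0 ≤ t →
    mj g n t ≤ Real.exp (C * t ^ (7 / 8 : ℝ))) {n : ℕ} (hn : 2 ≤ n) {x X : ℝ} (hX : 0 < X)
    (hx : X ≤ |x|) :
    MJ g n x ≤ (1 + X ^ 2) ^ 3 * Real.exp (2 * C * (X ^ 2) ^ (7 / 8 : ℝ)) * (|x| / X) ^ (4 * n) := by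
  obtain ⟨θ, hθ⟩ : ∃ θ, θ = |x| / X := ⟨_, rfl⟩
  have hθ1 : 1 ≤ θ := by rw [hθ, le_div_iff₀ hX, one_mul]; exact hx
  have hθ2 : 1 ≤ θ ^ 2 := one_le_pow₀ hθ1
  have ex : x ^ 2 = θ ^ 2 * X ^ 2 := by
    rw [hθ, div_pow, sq_abs]
    field_simp
  have hY : 0 ≤ X ^ 2 := sq_nonneg X
  obtain ⟨Y, hYd⟩ : ∃ Y, Y = X ^ 2 := ⟨_, rfl⟩
  obtain ⟨s, hsd⟩ : ∃ s, s = θ ^ 2 := ⟨_, rfl⟩
  obtain ⟨m, rfl⟩ : ∃ m, n = m + 2 := ⟨n - 2, by omega⟩
  have e1 : m + 2 - 1 = m + 1 := by omega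
  have e2 : m + 2 - 2 = m := by omega
  unfold MJ
  rw [e1, e2, ex, ← hθ, ← hYd, ← hsd]
  rw [← hYd] at hY
  rw [← hsd] at hθ2
  have e4 : θ ^ (4 * (m + 2)) = s ^ (2 * (m + 2)) := by
    rw [hsd, ← pow_mul]
    congr 1
    ring
  rw [e4]
  have e : Real.exp (2 * C * Y ^ (7 / 8 : ℝ)) = Real.exp (C * Y ^ (7 / 8 : ℝ)) ^ 2 := by
    rw [← Real.exp_nat_mul]
    congr 1
    push_cast
    ring
  rw [e]
  obtain ⟨E, hE⟩ : ∃ E, E = Real.exp (C * Y ^ (7 / 8 : ℝ)) := ⟨_, rfl⟩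
  have hE0 : 0 ≤ E := by rw [hE]; exact (Real.exp_pos _).le
  have a1 : mj g (m + 1) (s * Y) ≤ s ^ (m + 1) * E := by
    refine (mj_scale g (m + 1) hθ2).trans ?_
    rw [hE]
    exact mul_le_mul_of_nonneg_left (hM _ Y hY) (by positivity)
  have a2 : mj g m (s * Y) ≤ s ^ m * E := by
    refine (mj_scale g m hθ2).trans ?_
    rw [hE]
    exact mul_le_mul_of_nonneg_left (hM _ Y hY) (by positivity)
  rw [← hE]
  have b1 : mj g (m + 1) (s * Y) ^ 2 ≤ (s ^ (m + 1) * E) ^ 2 :=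
    pow_le_pow_left₀ (mj_nonneg _ _ _) a1 2
  have b2 : mj g m (s * Y) ^ 2 ≤ (s ^ m * E) ^ 2 :=
    pow_le_pow_left₀ (mj_nonneg _ _ _) a2 2
  have c1 : 1 + s * Y ≤ s * (1 + Y) := by linarith
  have hs0 : 0 ≤ s := by linarith
  have hsY : 0 ≤ s * Y := mul_nonneg hs0 hY
  have c2 : (1 + s * Y) ^ 2 ≤ (s * (1 + Y)) ^ 2 := pow_le_pow_left₀ (by linarith) c1 2
  have c3 : s * Y * mj g m (s * Y) ^ 2 ≤ s * Y * (s ^ m * E) ^ 2 :=
    mul_le_mul_of_nonneg_left b2 hsY
  have c4 : s * Y * (s ^ m * E) ^ 2 ≤ s ^ (2 * (m + 1)) * (Y * E ^ 2) := by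
    calc s * Y * (s ^ m * E) ^ 2 = s ^ (2 * m + 1) * (Y * E ^ 2) := by ring
      _ ≤ s ^ (2 * (m + 1)) * (Y * E ^ 2) :=
        mul_le_mul_of_nonneg_right (pow_le_pow_right₀ hθ2 (by omega)) (by positivity)
  calc (1 + s * Y) ^ 2 * (mj g (m + 1) (s * Y) ^ 2 + s * Y * mj g m (s * Y) ^ 2)
      ≤ (s * (1 + Y)) ^ 2 * ((s ^ (m + 1) * E) ^ 2 + s ^ (2 * (m + 1)) * (Y * E ^ 2)) := by
        refine mul_le_mul c2 (by linarith) ?_ (by positivity)
        have := mj_nonneg g m (s * Y)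
        positivity
    _ = (1 + Y) ^ 3 * E ^ 2 * s ^ (2 * (m + 2)) := by ring

/-- the fixed majorant -/
theorem gauss_int (K c : ℝ) (hc : 0 < c) :
    Integrable fun x : ℝ => K * ((1 + x ^ 2) ^ 3 * Real.exp (-c * x ^ 2)) := by
  refine Integrable.const_mul ?_ K
  have h : ∀ k : ℕ, Integrable fun x : ℝ => x ^ (2 * k) * Real.exp (-c * x ^ 2) := by
    intro k
    have h1 := integrable_rpow_mul_exp_neg_mul_sq hc (s := ((2 * k : ℕ) : ℝ))
      (lt_of_lt_of_le (by norm_num) (Nat.cast_nonneg _))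
    refine h1.congr (Eventually.of_forall fun x => ?_)
    simp only [Real.rpow_natCast]
  have e : (fun x : ℝ => (1 + x ^ 2) ^ 3 * Real.exp (-c * x ^ 2)) = fun x : ℝ =>
      x ^ (2 * 0) * Real.exp (-c * x ^ 2) + 3 * (x ^ (2 * 1) * Real.exp (-c * x ^ 2))
        + 3 * (x ^ (2 * 2) * Real.exp (-c * x ^ 2)) + x ^ (2 * 3) * Real.exp (-c * x ^ 2) := by
    funext x
    ring
  rw [e]
  exact (((h 0).add ((h 1).const_mul 3)).add ((h 2).const_mul 3)).add (h 3)

/-- JOB WtsZ. -/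
theorem wtsZ (hB : S_SpB) (hN : S_Near) (hF : S_Far) (hS : S_Sn) (hL : S_LimS) (hM : S_Mj)
    (hI : S_Inty) : S_WtsZ := by
  intro g hgm hg0 hgs n κ hκ hn
  have hg : ∀ j, 0 < g j := fun j => lt_of_lt_of_le hg0 (hgm.monotone (Nat.zero_le j))
  obtain ⟨C, hC, hMj⟩ := hM g hg hgs
  have hπ : 0 < Real.pi := Real.pi_pos
  -- the size of `n`
  have ev1 : ∀ᶠ a : ℝ in atTop, κ / 2 * a ^ 2 ≤ n a ∧ (n a : ℝ) ≤ 2 * κ * a ^ 2 ∧ 1 ≤ a := by
    filter_upwards [hn.eventually (le_mem_nhds (show κ / 2 < κ by linarith)),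
      hn.eventually (ge_mem_nhds (show κ < 2 * κ by linarith)), eventually_ge_atTop (1 : ℝ)]
      with a h1 h2 h3
    have ha : 0 < a ^ 2 := by positivity
    refine ⟨?_, ?_, h3⟩
    · rwa [le_div_iff₀ ha] at h1
    · rwa [div_le_iff₀ ha] at h2
  have hnt : Tendsto n atTop atTop := by
    rw [← tendsto_natCast_atTop_iff (R := ℝ)]
    refine tendsto_atTop_mono' atTop (ev1.mono fun a h => h.1) ?_
    exact (tendsto_pow_atTop (two_ne_zero)).const_mul_atTop (by positivity)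
  have ev2 : ∀ᶠ a : ℝ in atTop, 2 ≤ n a := hnt.eventually (eventually_ge_atTop 2)
  have hxk : ∀ (a : ℝ) (m : ℕ), 0 < a → 0 < xk a (m + 1) := fun a m ha => by
    unfold xk
    positivity
  have hnorm : ∀ (a : ℝ) (m : ℕ) (x : ℝ), ‖Sp a m (x : ℂ)‖ ^ 2 = Sr a m x ^ 2 := fun a m x => by
    rw [(hB a m).2.2.2.1 x, Complex.norm_real, Real.norm_eq_abs, sq_abs]
  have hnear : ∀ (a : ℝ) (m : ℕ) (x : ℝ), 0 < a → |x| ≤ xk a (m + 1) →
      Sr a m x ^ 2 ≤ Real.exp (-2 * x ^ 2 * sn a m) := by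
    intro a m x ha hx
    have h1 := hN a m (x : ℂ) ha (by simpa using hx) (by simpa using (hxk a m ha).le)
    rw [hnorm] at h1
    simpa using h1
  have hfar : ∀ (a : ℝ) (m : ℕ) (x : ℝ), 0 < a → xk a (m + 1) ≤ |x| →
      Sr a m x ^ 2 ≤ 1 / ((a * x) ^ 2 * (|x| / xk a (m + 1)) ^ (4 * m) * 4 ^ m) := by
    intro a m x ha hx
    have h1 := hF a m (x : ℂ) ha (by simpa using hx)
    rw [hnorm] at h1
    simpa using h1
  have hsn0 : ∀ (a : ℝ) (m : ℕ), 0 < a → 1 ≤ m → 0 ≤ sn a m := fun a m ha hm =>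
    le_trans (by positivity) (hS a m ha hm).2.1
  refine ⟨fun a x => ?_, fun a x => ?_, fun a => ?_, ?_, ?_, ?_, ?_, ?_⟩
  · unfold wt
    positivity
  · unfold wt Sr
    rw [neg_sq]
  · unfold wt
    exact ((hB a (n a)).2.1.pow 2).div_const _
  · filter_upwards [eventually_gt_atTop (0 : ℝ)] with a ha
    have h1 := (hI a (n a) ha).2 ((1 + X ^ 2) ^ (2 * n a)) (by
      refine natDegree_pow_le.trans ?_
      have h2 : (1 + X ^ 2 : ℝ[X]).natDegree ≤ 2 :=
        (natDegree_add_le _ _).trans (max_le (by simp) (natDegree_X_pow_le 2))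
      calc 2 * n a * (1 + X ^ 2 : ℝ[X]).natDegree ≤ 2 * n a * 2 := Nat.mul_le_mul_left _ h2
        _ = 4 * n a := by ring)
    have h2 := h1.div_const (2 * Real.pi)
    refine h2.congr (Eventually.of_forall fun x => ?_)
    unfold wt
    simp only [eval_pow, eval_add, eval_one, eval_X]
    ring
  · filter_upwards [eventually_gt_atTop (0 : ℝ), ev2] with a ha h2
    obtain ⟨D, hD, hDb⟩ := MJ_le hgm hg0 h2
    have h1 := (hI a (n a) ha).2 ((1 + X ^ 2) ^ (2 * n a)) (by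
      refine natDegree_pow_le.trans ?_
      have h2 : (1 + X ^ 2 : ℝ[X]).natDegree ≤ 2 :=
        (natDegree_add_le _ _).trans (max_le (by simp) (natDegree_X_pow_le 2))
      calc 2 * n a * (1 + X ^ 2 : ℝ[X]).natDegree ≤ 2 * n a * 2 := Nat.mul_le_mul_left _ h2
        _ = 4 * n a := by ring)
    have h3 := (h1.div_const (2 * Real.pi)).const_mul D
    refine h3.mono' ?_ (Eventually.of_forall fun x => ?_)
    · have hc : Continuous (wt n a) := by
        unfold wt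
        exact ((hB a (n a)).2.1.pow 2).div_const _
      exact ((MJ_cont g (n a)).mul hc).aestronglyMeasurable
    · have hw : 0 ≤ wt n a x := by
        unfold wt
        positivity
      rw [Real.norm_eq_abs, abs_of_nonneg (mul_nonneg (MJ_nonneg g _ x) hw)]
      have h4 := mul_le_mul_of_nonneg_right (hDb x) hw
      refine h4.trans (le_of_eq ?_)
      unfold wt
      simp only [eval_pow, eval_add, eval_one, eval_X]
      ring
  · -- the lower bound
    have hck : 0 < ck κ := by unfold ck; positivity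
    obtain ⟨r, hr⟩ : ∃ r, r = √(g 0) / 2 := ⟨_, rfl⟩
    have hr0 : 0 < r := by rw [hr]; exact div_pos (Real.sqrt_pos.2 hg0) two_pos
    obtain ⟨m0, hm0⟩ : ∃ m0, m0 = Real.exp (-(ck κ * r ^ 2)) := ⟨_, rfl⟩
    have hm0p : 0 < m0 := by rw [hm0]; exact Real.exp_pos _
    refine ⟨r, (m0 / 2) ^ 2 / (2 * Real.pi), hr0, ?_, by positivity, ?_⟩
    · rw [hr, div_pow, Real.sq_sqrt hg0.le]
      linarith
    · have h1 := (hL n κ hκ hn).tendstoLocallyUniformlyOn (s := Metric.closedBall (0 : ℂ) r)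
      rw [tendstoLocallyUniformlyOn_iff_tendstoUniformlyOn_of_compact
        (isCompact_closedBall (0 : ℂ) r)] at h1
      rw [Metric.tendstoUniformlyOn_iff] at h1
      filter_upwards [h1 (m0 / 2) (by positivity)] with a ha x hx
      have h2 := ha (x : ℂ) (by simpa using hx)
      have h3 : Complex.exp (-((ck κ : ℂ) * (x : ℂ) ^ 2)) = ((Real.exp (-(ck κ * x ^ 2)) : ℝ) : ℂ) := by
        push_cast
        rfl
      rw [h3, (hB a (n a)).2.2.2.1 x, Complex.dist_eq, ← Complex.ofReal_sub, Complex.norm_real,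
        Real.norm_eq_abs] at h2
      have h4 : m0 ≤ Real.exp (-(ck κ * x ^ 2)) := by
        rw [hm0]
        refine Real.exp_le_exp.2 (neg_le_neg (mul_le_mul_of_nonneg_left ?_ hck.le))
        rw [← sq_abs x]
        exact pow_le_pow_left₀ (abs_nonneg x) hx 2
      have h5 := (abs_lt.1 h2).2
      have h6 : m0 / 2 ≤ Sr a (n a) x := by linarith
      unfold wt
      have h7 := pow_le_pow_left₀ (by positivity) h6 2
      exact div_le_div_of_nonneg_right h7 (by positivity)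
  · -- the upper bound
    intro X
    refine ⟨1, ?_⟩
    filter_upwards [ev1, ev2, eventually_ge_atTop (|X| / (κ / 2) + 1)] with a ha ha2 ha3 x hx
    have ha0 : 0 < a := by linarith [ha.2.2]
    have h1 : |x| ≤ xk a (n a + 1) := by
      have h2 : κ / 2 * a ≤ xk a (n a + 1) := by
        unfold xk
        rw [le_div_iff₀ ha0]
        push_cast
        have h3 : κ / 2 * a * a ≤ n a := by
          have := ha.1
          nlinarith
        have h4 : (1 : ℝ) ≤ Real.pi := by linarith [Real.pi_gt_three]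
        have h5 : (0 : ℝ) ≤ n a := Nat.cast_nonneg _
        nlinarith
      have h3 : |X| ≤ κ / 2 * a := by
        have h4 : |X| / (κ / 2) ≤ a := by linarith
        rw [div_le_iff₀ (by positivity)] at h4
        linarith
      linarith [le_abs_self X]
    have h2 := hnear a (n a) x ha0 h1
    have h3 : Real.exp (-2 * x ^ 2 * sn a (n a)) ≤ 1 := by
      rw [Real.exp_le_one_iff]
      have h4 := hsn0 a (n a) ha0 (by omega)
      have h5 := mul_nonneg (sq_nonneg x) h4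
      nlinarith
    unfold wt
    rw [div_le_one (by positivity)]
    have h4 : (1 : ℝ) ≤ 2 * Real.pi := by linarith [Real.pi_gt_three]
    linarith
  · -- the tail
    intro ε hε
    obtain ⟨c, hc⟩ : ∃ c, c = 1 / (4 * Real.pi ^ 2 * κ) := ⟨_, rfl⟩
    have hc0 : 0 < c := by rw [hc]; positivity
    obtain ⟨δ, hδ⟩ : ∃ δ, δ = c / (2 * C) := ⟨_, rfl⟩
    have hδ0 : 0 < δ := by rw [hδ]; positivity
    obtain ⟨K, hK⟩ : ∃ K, K = Real.exp (2 * C * (1 / δ) ^ 7) := ⟨_, rfl⟩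
    have hK0 : 0 < K := by rw [hK]; exact Real.exp_pos _
    obtain ⟨F, hFd⟩ : ∃ F : ℝ → ℝ, F = fun x => K * ((1 + x ^ 2) ^ 3 * Real.exp (-c * x ^ 2)) :=
      ⟨_, rfl⟩
    have hFi : Integrable F := by rw [hFd]; exact gauss_int K c hc0
    have hF0 : ∀ x, 0 ≤ F x := fun x => by
      rw [hFd]
      simp only
      positivity
    -- the far constants
    obtain ⟨C7, hC7⟩ : ∃ C7, C7 = 8 * Real.pi ^ 2 * κ := ⟨_, rfl⟩
    have hC70 : 0 < C7 := by rw [hC7]; positivity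
    have hlog : 0 < Real.log 2 := Real.log_pos one_lt_two
    obtain ⟨δ2, hδ2⟩ : ∃ δ2, δ2 = Real.log 2 / (2 * C * C7) := ⟨_, rfl⟩
    have hδ20 : 0 < δ2 := by rw [hδ2]; positivity
    obtain ⟨K2, hK2⟩ : ∃ K2, K2 = Real.exp (2 * C * (1 / δ2) ^ 7) := ⟨_, rfl⟩
    have hK20 : 0 < K2 := by rw [hK2]; exact Real.exp_pos _
    obtain ⟨R, hR⟩ : ∃ R : ℝ → ℝ, R = fun a => K2 * (1 + C7) ^ 3 * ((n a : ℝ) ^ 3 * (1 / 2) ^ n a) :=
      ⟨_, rfl⟩
    have hRt : Tendsto R atTop (𝓝 0) := by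
      have h1 := (tendsto_pow_const_mul_const_pow_of_abs_lt_one 3
        (r := (1 / 2 : ℝ)) (by rw [abs_of_pos] <;> norm_num)).comp hnt
      have h2 := h1.const_mul (K2 * (1 + C7) ^ 3)
      rw [mul_zero] at h2
      rw [hR]
      exact h2
    have hR0 : ∀ a, 0 ≤ R a := fun a => by
      rw [hR]
      simp only
      positivity
    -- the choice of `X`
    obtain ⟨X, hX1, hX2⟩ : ∃ X : ℕ, 1 ≤ X ∧ ∫ x in {x : ℝ | (X : ℝ) < |x|}, F x < ε / 2 := by
      have hms : ∀ i : ℕ, MeasurableSet {x : ℝ | (i : ℝ) < |x|} := fun i =>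
        measurableSet_lt measurable_const measurable_norm
      have h1 := tendsto_setIntegral_of_antitone (μ := volume) (f := F)
        (s := fun i : ℕ => {x : ℝ | (i : ℝ) < |x|}) hms
        (fun i j hij x hx => by
          have h3 : (i : ℝ) ≤ j := by exact_mod_cast hij
          exact lt_of_le_of_lt h3 hx) ⟨0, hFi.integrableOn⟩
      have h2 : (⋂ i : ℕ, {x : ℝ | (i : ℝ) < |x|}) = ∅ := by
        ext x
        simp only [Set.mem_iInter, Set.mem_setOf_eq, Set.mem_empty_iff_false, iff_false, not_forall,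
          not_lt]
        exact exists_nat_ge |x|
      rw [h2, setIntegral_empty] at h1
      obtain ⟨X, h3, h4⟩ := ((eventually_ge_atTop 1).and
        (h1.eventually (gt_mem_nhds (show (0 : ℝ) < ε / 2 by positivity)))).exists
      exact ⟨X, h3, h4⟩
    refine ⟨X, ?_⟩
    filter_upwards [ev1, ev2, hRt.eventually (gt_mem_nhds (show (0 : ℝ) < ε / (4 * Real.pi) by
      positivity))] with a ha ha2 haR
    obtain ⟨ha3, ha4, ha5⟩ := ha
    have ha0 : 0 < a := by linarith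
    have hms : MeasurableSet {x : ℝ | (X : ℝ) < |x|} :=
      measurableSet_lt measurable_const measurable_norm
    have hn1 : (1 : ℝ) ≤ n a := by exact_mod_cast (by omega : 1 ≤ n a)
    have hn0 : (0 : ℝ) < n a := by linarith
    have hpt : ∀ x : ℝ, (X : ℝ) < |x| →
        MJ g (n a) x * wt n a x ≤ F x + R a * (2 * (1 + x ^ 2)⁻¹) := by
      intro x hx
      have hx1 : 1 < |x| := lt_of_le_of_lt (by exact_mod_cast hX1) hx
      have hx2 : 1 ≤ x ^ 2 := by
        rw [← sq_abs]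
        exact one_le_pow₀ hx1.le
      have hwt : wt n a x ≤ Sr a (n a) x ^ 2 := by
        unfold wt
        refine div_le_self (sq_nonneg _) ?_
        linarith [Real.pi_gt_three]
      have hMJ0 := MJ_nonneg g (n a) x
      have h1 : MJ g (n a) x * wt n a x ≤ MJ g (n a) x * Sr a (n a) x ^ 2 :=
        mul_le_mul_of_nonneg_left hwt hMJ0
      rcases le_total |x| (xk a (n a + 1)) with h | h
      · -- near
        have h2 := hnear a (n a) x ha0 h
        have h3 := MJ_near hMj (n a) x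
        have hsn : c ≤ sn a (n a) := by
          refine le_trans ?_ (hS a (n a) ha0 (by omega)).2.1
          rw [hc, div_le_div_iff₀ (by positivity) (by positivity), one_mul]
          have h4 : ((n a : ℝ) + 1) ≤ 2 * (2 * κ * a ^ 2) := by linarith
          calc Real.pi ^ 2 * ((n a : ℝ) + 1) ≤ Real.pi ^ 2 * (2 * (2 * κ * a ^ 2)) := by gcongr
            _ = a ^ 2 * (4 * Real.pi ^ 2 * κ) := by ring
        have h4 : 2 * C * (x ^ 2) ^ (7 / 8 : ℝ) ≤ c * x ^ 2 + 2 * C * (1 / δ) ^ 7 := by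
          have h5 := pow78_le (sq_nonneg x) hδ0
          have h6 : 2 * C * (δ * x ^ 2) = c * x ^ 2 := by
            rw [hδ]
            field_simp
          calc 2 * C * (x ^ 2) ^ (7 / 8 : ℝ) ≤ 2 * C * (δ * x ^ 2 + (1 / δ) ^ 7) := by gcongr
            _ = 2 * C * (δ * x ^ 2) + 2 * C * (1 / δ) ^ 7 := by ring
            _ = _ := by rw [h6]
        have h5 : MJ g (n a) x * Sr a (n a) x ^ 2 ≤ F x := by
          calc MJ g (n a) x * Sr a (n a) x ^ 2
              ≤ ((1 + x ^ 2) ^ 3 * Real.exp (2 * C * (x ^ 2) ^ (7 / 8 : ℝ)))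
                * Real.exp (-2 * x ^ 2 * sn a (n a)) :=
                mul_le_mul h3 h2 (sq_nonneg _) (by positivity)
            _ ≤ ((1 + x ^ 2) ^ 3 * Real.exp (c * x ^ 2 + 2 * C * (1 / δ) ^ 7))
                * Real.exp (-2 * x ^ 2 * c) := by
                refine mul_le_mul (mul_le_mul_of_nonneg_left (Real.exp_le_exp.2 h4)
                  (by positivity)) (Real.exp_le_exp.2 ?_) (Real.exp_pos _).le (by positivity)
                have := mul_le_mul_of_nonneg_left hsn (sq_nonneg x)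
                nlinarith
            _ = F x := by
                rw [hFd, hK]
                simp only
                rw [mul_assoc, ← Real.exp_add, mul_left_comm, ← Real.exp_add]
                congr 2
                ring
        have h6 : 0 ≤ R a * (2 * (1 + x ^ 2)⁻¹) := mul_nonneg (hR0 a) (by positivity)
        linarith
      · -- far
        have hX1p := hxk a (n a) ha0
        obtain ⟨Y, hY⟩ : ∃ Y, Y = xk a (n a + 1) := ⟨_, rfl⟩
        have h2 := hfar a (n a) x ha0 h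
        rw [← hY] at h h2 hX1p
        have h3 := MJ_far hMj ha2 hX1p h
        have hθ : 0 < |x| / Y := div_pos (by linarith) hX1p
        -- the size of `Y`
        have hY2 : Y ^ 2 ≤ C7 * n a := by
          have h4 : Y = Real.pi * (n a + 1) / a := by
            rw [hY]
            unfold xk
            push_cast
            ring
          rw [h4, div_pow, div_le_iff₀ (by positivity), hC7]
          have h5 : (Real.pi * ((n a : ℝ) + 1)) ^ 2 ≤ (Real.pi * (2 * n a)) ^ 2 := by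
            have : ((n a : ℝ) + 1) ≤ 2 * n a := by linarith
            gcongr
          calc (Real.pi * ((n a : ℝ) + 1)) ^ 2 ≤ (Real.pi * (2 * n a)) ^ 2 := h5
            _ = 4 * Real.pi ^ 2 * n a * n a := by ring
            _ ≤ 4 * Real.pi ^ 2 * n a * (2 * κ * a ^ 2) := by gcongr
            _ = _ := by ring
        have hE : Real.exp (2 * C * (Y ^ 2) ^ (7 / 8 : ℝ)) ≤ K2 * 2 ^ n a := by
          have h5 := pow78_le (sq_nonneg Y) hδ20
          have h6 : 2 * C * (Y ^ 2) ^ (7 / 8 : ℝ) ≤ n a * Real.log 2 + 2 * C * (1 / δ2) ^ 7 := by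
            calc 2 * C * (Y ^ 2) ^ (7 / 8 : ℝ) ≤ 2 * C * (δ2 * Y ^ 2 + (1 / δ2) ^ 7) := by gcongr
              _ ≤ 2 * C * (δ2 * (C7 * n a) + (1 / δ2) ^ 7) := by gcongr
              _ = (2 * C * C7 * δ2) * n a + 2 * C * (1 / δ2) ^ 7 := by ring
              _ = n a * Real.log 2 + 2 * C * (1 / δ2) ^ 7 := by
                have h7 : 2 * C * C7 * δ2 = Real.log 2 := by
                  rw [hδ2]
                  field_simp
                rw [h7]
                ring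
          refine (Real.exp_le_exp.2 h6).trans (le_of_eq ?_)
          rw [Real.exp_add, hK2, Real.exp_nat_mul, Real.exp_log two_pos]
          ring
        have hYc : (1 + Y ^ 2) ^ 3 ≤ (1 + C7) ^ 3 * (n a : ℝ) ^ 3 := by
          rw [← mul_pow]
          refine pow_le_pow_left₀ (by positivity) ?_ 3
          linarith
        have h5 : MJ g (n a) x * Sr a (n a) x ^ 2 ≤ R a * (2 * (1 + x ^ 2)⁻¹) := by
          have hax : x ^ 2 ≤ (a * x) ^ 2 := by
            rw [mul_pow]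
            have : 1 ≤ a ^ 2 := one_le_pow₀ ha5
            nlinarith [sq_nonneg x]
          have hxp : 0 < x ^ 2 := by linarith
          calc MJ g (n a) x * Sr a (n a) x ^ 2
              ≤ ((1 + Y ^ 2) ^ 3 * Real.exp (2 * C * (Y ^ 2) ^ (7 / 8 : ℝ)) * (|x| / Y) ^ (4 * n a))
                * (1 / ((a * x) ^ 2 * (|x| / Y) ^ (4 * n a) * 4 ^ n a)) :=
                mul_le_mul h3 h2 (sq_nonneg _) (by positivity)
            _ = (1 + Y ^ 2) ^ 3 * Real.exp (2 * C * (Y ^ 2) ^ (7 / 8 : ℝ))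
                * (1 / 4 ^ n a) * (1 / (a * x) ^ 2) := by
                have : (|x| / Y) ^ (4 * n a) ≠ 0 := (pow_pos hθ _).ne'
                have : (a * x) ^ 2 ≠ 0 := (lt_of_lt_of_le hxp hax).ne'
                field_simp
            _ ≤ ((1 + C7) ^ 3 * (n a : ℝ) ^ 3) * (K2 * 2 ^ n a) * (1 / 4 ^ n a) * (1 / x ^ 2) := by
                gcongr
            _ = R a * (1 / x ^ 2) := by
                rw [hR]
                simp only
                have e : (4 : ℝ) ^ n a = 2 ^ n a * 2 ^ n a := by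
                  rw [← mul_pow]
                  norm_num
                rw [e, div_pow, one_pow]
                field_simp
            _ ≤ R a * (2 * (1 + x ^ 2)⁻¹) := by
                refine mul_le_mul_of_nonneg_left ?_ (hR0 a)
                rw [← div_eq_mul_inv, div_le_div_iff₀ hxp (by positivity)]
                linarith
        linarith [hF0 x]
    have hGi : Integrable fun x : ℝ => R a * (2 * (1 + x ^ 2)⁻¹) :=
      (integrable_inv_one_add_sq.const_mul 2).const_mul (R a)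
    have hfin : ∫ x in {x : ℝ | (X : ℝ) < |x|}, MJ g (n a) x * wt n a x
        ≤ ∫ x in {x : ℝ | (X : ℝ) < |x|}, (F x + R a * (2 * (1 + x ^ 2)⁻¹)) := by
      refine integral_mono_of_nonneg (Eventually.of_forall fun x => ?_)
        (hFi.add hGi).integrableOn ((ae_restrict_iff' hms).2 (Eventually.of_forall hpt))
      have hw : 0 ≤ wt n a x := by
        unfold wt
        positivity
      exact mul_nonneg (MJ_nonneg g _ x) hw
    refine hfin.trans ?_
    rw [integral_add hFi.integrableOn hGi.integrableOn]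
    have h8 : ∫ x in {x : ℝ | (X : ℝ) < |x|}, R a * (2 * (1 + x ^ 2)⁻¹)
        ≤ ∫ x : ℝ, R a * (2 * (1 + x ^ 2)⁻¹) :=
      setIntegral_le_integral hGi (Eventually.of_forall fun x =>
        mul_nonneg (hR0 a) (by positivity))
    have h10 : ∫ x : ℝ, R a * (2 * (1 + x ^ 2)⁻¹) = R a * (2 * Real.pi) := by
      rw [integral_const_mul, integral_const_mul, integral_univ_inv_one_add_sq]
    rw [h10] at h8
    have h9 : R a * (2 * Real.pi) ≤ ε / 2 := by
      rw [lt_div_iff₀ (by positivity)] at haR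
      linarith
    linarith

end Pool.Agent.Q225.CD
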